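import Mathlib

/-!
# The blow-up counting lemma for the 5-cycle

`dens5 P` is the density of the set of 5-tuples satisfying `P`. Replacing one coordinate by three
independent copies of it raises the density at least to its third power (Jensen).
-/

namespace Pool.Agent.Lib.MP_155693_co

open Finset

open scoped Classical in
/-- number of 5-tuples satisfying `P`, as a real number -/
noncomputable def cnt5 {X1 X2 X3 X4 X5 : Type} [Fintype X1] [Fintype X2] [Fintype X3] [Fintype X4]
    [Fintype X5] (P : X1 → X2 → X3 → X4 → X5 → Prop) : ℝ :=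
  ∑ x1, ∑ x2, ∑ x3, ∑ x4, ∑ x5, if P x1 x2 x3 x4 x5 then (1 : ℝ) else 0

/-- density of the 5-tuples satisfying `P` -/
noncomputable def dens5 {X1 X2 X3 X4 X5 : Type} [Fintype X1] [Fintype X2] [Fintype X3] [Fintype X4]
    [Fintype X5] (P : X1 → X2 → X3 → X4 → X5 → Prop) : ℝ :=
  cnt5 P / (Fintype.card X1 * Fintype.card X2 * Fintype.card X3 * Fintype.card X4 *
    Fintype.card X5)

/-- triple the first coordinate and move it to the end -/
def rot {X1 X2 X3 X4 X5 : Type} (P : X1 → X2 → X3 → X4 → X5 → Prop) :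
    X2 → X3 → X4 → X5 → (Fin 3 → X1) → Prop :=
  fun x2 x3 x4 x5 x1 => ∀ i, P (x1 i) x2 x3 x4 x5

lemma dens5_nonneg {X1 X2 X3 X4 X5 : Type} [Fintype X1] [Fintype X2] [Fintype X3] [Fintype X4]
    [Fintype X5] (P : X1 → X2 → X3 → X4 → X5 → Prop) : 0 ≤ dens5 P := by
  unfold dens5 cnt5
  positivity

lemma dens5_rot {X1 X2 X3 X4 X5 : Type} [Fintype X1] [Fintype X2] [Fintype X3] [Fintype X4]
    [Fintype X5] [Nonempty X1] [Nonempty X2] [Nonempty X3] [Nonempty X4] [Nonempty X5]
    (P : X1 → X2 → X3 → X4 → X5 → Prop) :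
    dens5 P ^ 3 ≤ dens5 (rot P) := by
  classical
  -- q a : number of x1 with P x1 a
  let q : X2 × X3 × X4 × X5 → ℝ := fun a => ∑ x1, if P x1 a.1 a.2.1 a.2.2.1 a.2.2.2 then (1 : ℝ) else 0
  have hq : ∀ a, 0 ≤ q a := fun a => by positivity
  have h1 : cnt5 P = ∑ a, q a := by
    have : ∑ a, q a = ∑ x1, ∑ a : X2 × X3 × X4 × X5,
        if P x1 a.1 a.2.1 a.2.2.1 a.2.2.2 then (1 : ℝ) else 0 := Finset.sum_comm
    rw [this]
    simp only [cnt5, Fintype.sum_prod_type]
  have h2 : cnt5 (rot P) = ∑ a, q a ^ 3 := by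
    simp only [cnt5, Fintype.sum_prod_type, q, rot]
    refine Finset.sum_congr rfl fun x2 _ => Finset.sum_congr rfl fun x3 _ =>
      Finset.sum_congr rfl fun x4 _ => Finset.sum_congr rfl fun x5 _ => ?_
    rw [Fintype.sum_pow]
    refine Finset.sum_congr rfl fun x1 _ => ?_
    rw [Finset.prod_boole]
    simp only [Finset.mem_univ, true_implies]
    congr
  have h3 : (∑ a, q a) ^ 3 ≤ (Fintype.card (X2 × X3 × X4 × X5) : ℝ) ^ 2 * ∑ a, q a ^ 3 := by
    have := pow_sum_le_card_mul_sum_pow (s := (Finset.univ : Finset (X2 × X3 × X4 × X5)))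
      (f := q) (fun a _ => hq a) 2
    simpa using this
  have c1 : (0 : ℝ) < Fintype.card X1 := by exact_mod_cast Fintype.card_pos
  have c2 : (0 : ℝ) < Fintype.card X2 := by exact_mod_cast Fintype.card_pos
  have c3 : (0 : ℝ) < Fintype.card X3 := by exact_mod_cast Fintype.card_pos
  have c4 : (0 : ℝ) < Fintype.card X4 := by exact_mod_cast Fintype.card_pos
  have c5 : (0 : ℝ) < Fintype.card X5 := by exact_mod_cast Fintype.card_pos
  unfold dens5
  rw [h1, h2, div_pow, div_le_div_iff₀ (by positivity)]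
  · simp only [Fintype.card_prod, Nat.cast_mul, Fintype.card_pi, Finset.prod_const, Finset.card_univ,
      Fintype.card_fin, Nat.cast_pow] at h3 ⊢
    calc (∑ a, q a) ^ 3 * ((Fintype.card X2 : ℝ) * Fintype.card X3 * Fintype.card X4 *
          Fintype.card X5 * (Fintype.card X1 : ℝ) ^ 3)
        ≤ (((Fintype.card X2 : ℝ) * (Fintype.card X3 * (Fintype.card X4 * Fintype.card X5))) ^ 2 *
          ∑ a, q a ^ 3) * ((Fintype.card X2 : ℝ) * Fintype.card X3 * Fintype.card X4 *
          Fintype.card X5 * (Fintype.card X1 : ℝ) ^ 3) := by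
          gcongr
      _ = _ := by ring
  · simp only [Fintype.card_pi, Finset.prod_const, Finset.card_univ,
      Fintype.card_fin, Nat.cast_pow]
    positivity

/-- The iterated version. -/
lemma dens5_rot5 {X : Type} [Fintype X] [Nonempty X] (P : X → X → X → X → X → Prop) :
    dens5 P ^ 243 ≤ dens5 (rot (rot (rot (rot (rot P))))) := by
  have h1 := dens5_rot P
  have h2 := dens5_rot (rot P)
  have h3 := dens5_rot (rot (rot P))
  have h4 := dens5_rot (rot (rot (rot P)))
  have h5 := dens5_rot (rot (rot (rot (rot P))))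
  have e : dens5 P ^ 243 = ((((dens5 P ^ 3) ^ 3) ^ 3) ^ 3) ^ 3 := by
    simp only [← pow_mul]
  rw [e]
  have n0 := dens5_nonneg P
  refine le_trans ?_ h5
  refine pow_le_pow_left₀ (by positivity) ?_ 3
  refine le_trans ?_ h4
  refine pow_le_pow_left₀ (by positivity) ?_ 3
  refine le_trans ?_ h3
  refine pow_le_pow_left₀ (by positivity) ?_ 3
  refine le_trans ?_ h2
  exact pow_le_pow_left₀ (by positivity) h1 3

end Pool.Agent.Lib.MP_155693_co
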