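import Mathlib

/-!
# Removal thresholds: the definitions used in `MP_155693_co`
-/

namespace Pool.Agent.Lib.MP_155693_co

open SimpleGraph

/-- The labelled copies of `H` in `G` collected in `J` are pairwise edge-disjoint. -/
def PairwiseEdgeDisjoint {V W : Type*} {H : SimpleGraph W} {G : SimpleGraph V}
    (J : Finset (H.Copy G)) : Prop :=
  ∀ f ∈ J, ∀ g ∈ J, f ≠ g → Disjoint f.toSubgraph.edgeSet g.toSubgraph.edgeSet

/-- The `δ ∈ [0,1]` such that every `n`-vertex graph `G` with minimum degree at least `γ n` which has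
(at least) `ε n ^ 2` pairwise edge-disjoint copies of `H` has at least `δ n ^ v(H)` labelled copies
of `H`. -/
def removalSet {W : Type} [Fintype W] (H : SimpleGraph W) (ε γ : ℝ) : Set ℝ :=
  {δ : ℝ | 0 ≤ δ ∧ δ ≤ 1 ∧
    ∀ (n : ℕ) (G : SimpleGraph (Fin n)) [DecidableRel G.Adj],
      γ * n ≤ G.minDegree →
      (∃ J : Finset (H.Copy G), PairwiseEdgeDisjoint J ∧ ε * (n : ℝ) ^ 2 ≤ J.card) →
      δ * (n : ℝ) ^ Fintype.card W ≤ G.labelledCopyCount H}

/-- `δ(ε, H; γ)`: the largest element of `removalSet H ε γ`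
(it is attained, see `removalDelta_isGreatest`). -/
noncomputable def removalDelta {W : Type} [Fintype W] (H : SimpleGraph W) (ε γ : ℝ) : ℝ :=
  sSup (removalSet H ε γ)

/-- The polynomial removal threshold: the infimum of those `γ ∈ [0,1]` for which there is `μ > 0`
such that `δ(ε, H; γ) ≥ μ ε ^ (1/μ)` for all `ε ∈ (0,1]`. -/
noncomputable def polyRemovalThreshold {W : Type} [Fintype W] (H : SimpleGraph W) : ℝ :=
  sInf {γ : ℝ | 0 ≤ γ ∧ γ ≤ 1 ∧ ∃ μ : ℝ, 0 < μ ∧
    ∀ ε : ℝ, 0 < ε → ε ≤ 1 → μ * ε ^ (1 / μ) ≤ removalDelta H ε γ}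

/-- The blow-up `C₅[3]` of the 5-cycle: each vertex of the 5-cycle is replaced by an independent set
of three vertices, and each edge by a complete bipartite graph. -/
def blowC5 : SimpleGraph (Fin 5 × Fin 3) := (cycleGraph 5).comap Prod.fst

/-- The Möbius ladder on 12 vertices: the circulant graph on `ℤ/12` with jumps `±1` and `6`. -/
def mobius12 : SimpleGraph (ZMod 12) := circulantGraph {1, 6}

section sanity

lemma labelledCopyCount_eq_natCard {W V : Type*} [Fintype W] [Fintype V]
    (H : SimpleGraph W) (G : SimpleGraph V) : G.labelledCopyCount H = Nat.card (H.Copy G) := by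
  classical
  rw [labelledCopyCount, Nat.card_eq_fintype_card]

lemma copy_finite {W V : Type*} [Finite W] [Finite V]
    (H : SimpleGraph W) (G : SimpleGraph V) : Finite (H.Copy G) :=
  Finite.of_injective (fun f : H.Copy G => (f : W → V)) DFunLike.coe_injective

variable {W : Type} [Fintype W] (H : SimpleGraph W) (ε γ : ℝ)

lemma zero_mem_removalSet : (0 : ℝ) ∈ removalSet H ε γ := by
  refine ⟨le_refl _, zero_le_one, ?_⟩
  intro n G _ _ _
  simp

lemma bddAbove_removalSet : BddAbove (removalSet H ε γ) := ⟨1, fun _ h => h.2.1⟩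

lemma le_removalDelta {δ : ℝ} (h : δ ∈ removalSet H ε γ) : δ ≤ removalDelta H ε γ :=
  le_csSup (bddAbove_removalSet H ε γ) h

lemma removalDelta_nonneg : 0 ≤ removalDelta H ε γ :=
  le_removalDelta H ε γ (zero_mem_removalSet H ε γ)

lemma removalDelta_le_one : removalDelta H ε γ ≤ 1 :=
  csSup_le ⟨0, zero_mem_removalSet H ε γ⟩ fun _ h => h.2.1

/-- The supremum defining `δ(ε, H; γ)` is a maximum. -/
lemma removalDelta_isGreatest : IsGreatest (removalSet H ε γ) (removalDelta H ε γ) := by
  refine ⟨⟨removalDelta_nonneg H ε γ, removalDelta_le_one H ε γ, ?_⟩, ?_⟩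
  · intro n G _ hG hJ
    rcases Nat.eq_zero_or_pos n with hn | hn
    · subst hn
      rcases Nat.eq_zero_or_pos (Fintype.card W) with hW | hW
      · have h1 : removalDelta H ε γ ≤ 1 := removalDelta_le_one H ε γ
        have : IsEmpty W := Fintype.card_eq_zero_iff.mp hW
        have h2 : G.labelledCopyCount H = 1 := labelledCopyCount_of_isEmpty G H
        rw [h2, hW]
        simpa using h1
      · have : ((0 : ℕ) : ℝ) ^ Fintype.card W = 0 := by
          rw [Nat.cast_zero, zero_pow hW.ne']
        rw [this]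
        simp
    · have hpos : (0 : ℝ) < (n : ℝ) ^ Fintype.card W := by positivity
      rw [← le_div_iff₀ hpos]
      refine csSup_le ⟨0, zero_mem_removalSet H ε γ⟩ ?_
      intro δ hδ
      rw [le_div_iff₀ hpos]
      exact hδ.2.2 n G hG hJ
  · intro δ hδ
    exact le_removalDelta H ε γ hδ

/-- For `γ = 1` the minimum degree condition is never met (except by the empty graph), so `γ = 1`
is always allowed in the definition of the threshold. -/
lemma one_mem_threshold_set [Nonempty W] :
    (1 : ℝ) ∈ {γ : ℝ | 0 ≤ γ ∧ γ ≤ 1 ∧ ∃ μ : ℝ, 0 < μ ∧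
      ∀ ε : ℝ, 0 < ε → ε ≤ 1 → μ * ε ^ (1 / μ) ≤ removalDelta H ε γ} := by
  refine ⟨zero_le_one, le_refl _, 1, one_pos, ?_⟩
  intro ε h0 h1
  have h : (1 : ℝ) ∈ removalSet H ε 1 := by
    refine ⟨zero_le_one, le_refl _, ?_⟩
    intro n G _ hG _
    rcases Nat.eq_zero_or_pos n with hn | hn
    · subst hn
      simp
    · exfalso
      have : Nonempty (Fin n) := ⟨⟨0, hn⟩⟩
      have h2 : G.minDegree < Fintype.card (Fin n) := G.minDegree_lt_card
      rw [Fintype.card_fin] at h2
      have h3 : (G.minDegree : ℝ) < n := by exact_mod_cast h2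
      linarith
  have h2 := le_removalDelta H ε 1 h
  simp only [one_mul, ne_eq, one_ne_zero, not_false_eq_true, div_self, Real.rpow_one]
  linarith

end sanity

end Pool.Agent.Lib.MP_155693_co
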