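import Mathlib
import Pool.Agent.Lib.MP_155693_co.Defs

/-!
# The Möbius ladder on 12 vertices

Every endomorphism of `mobius12` is an automorphism, and `mobius12` is a subgraph of `C₅[3]`.
-/

namespace Pool.Agent.Lib.MP_155693_co

open SimpleGraph

lemma mobius12_adj (i j : ZMod 12) :
    mobius12.Adj i j ↔ (i - j = 1 ∨ i - j = 6 ∨ j - i = 1) := by
  simp only [mobius12, circulantGraph_adj, Set.mem_insert_iff, Set.mem_singleton_iff]
  revert i j
  decide +kernel

lemma no_walk3 (x y z : ZMod 12) (h1 : mobius12.Adj x y) (h2 : mobius12.Adj y z)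
    (h3 : mobius12.Adj z x) : False := by
  simp only [mobius12_adj] at h1 h2 h3
  revert x y z
  decide +kernel

lemma no_walk5_aux : ∀ a ∈ ({1, 6, 11} : Finset (ZMod 12)), ∀ b ∈ ({1, 6, 11} : Finset (ZMod 12)),
    ∀ c ∈ ({1, 6, 11} : Finset (ZMod 12)), ∀ d ∈ ({1, 6, 11} : Finset (ZMod 12)),
    ∀ e ∈ ({1, 6, 11} : Finset (ZMod 12)), a + b + c + d + e ≠ 0 := by
  decide +kernel

lemma adj_diff (x y : ZMod 12) (h : mobius12.Adj x y) :
    x - y ∈ ({1, 6, 11} : Finset (ZMod 12)) := by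
  rw [mobius12_adj] at h
  revert x y
  decide +kernel

lemma no_walk5 (x y z w t : ZMod 12) (h1 : mobius12.Adj x y) (h2 : mobius12.Adj y z)
    (h3 : mobius12.Adj z w) (h4 : mobius12.Adj w t) (h5 : mobius12.Adj t x) : False :=
  no_walk5_aux _ (adj_diff _ _ h1) _ (adj_diff _ _ h2) _ (adj_diff _ _ h3) _ (adj_diff _ _ h4) _
    (adj_diff _ _ h5) (by ring)

lemma adj_shift (a : ZMod 12) (s t : ZMod 12) (h : mobius12.Adj s t) :
    mobius12.Adj (a + s) (a + t) := by
  rw [mobius12_adj] at h ⊢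
  have e1 : a + s - (a + t) = s - t := by ring
  have e2 : a + t - (a + s) = t - s := by ring
  rw [e1, e2]
  exact h

/-- Every endomorphism of `mobius12` is injective. -/
theorem endo_injective (σ : ZMod 12 → ZMod 12)
    (h : ∀ i j, mobius12.Adj i j → mobius12.Adj (σ i) (σ j)) : Function.Injective σ := by
  have step : ∀ a s t : ZMod 12, (s - t = 1 ∨ s - t = 6 ∨ t - s = 1) →
      mobius12.Adj (σ (a + s)) (σ (a + t)) := fun a s t hst =>
    h _ _ (adj_shift a s t ((mobius12_adj s t).mpr hst))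
  have key : ∀ a t : ZMod 12, (t = 1 ∨ t = 2 ∨ t = 3 ∨ t = 4 ∨ t = 5 ∨ t = 6) →
      σ a ≠ σ (a + t) := by
    intro a t ht heq
    have s01 := step a 0 1 (by decide)
    have s12 := step a 1 2 (by decide)
    have s23 := step a 2 3 (by decide)
    have s34 := step a 3 4 (by decide)
    have s45 := step a 4 5 (by decide)
    have s56 := step a 5 6 (by decide)
    have s60 := step a 6 0 (by decide)
    rw [add_zero] at s01 s60
    rcases ht with rfl | rfl | rfl | rfl | rfl | rfl
    · exact s01.ne heq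
    · rw [heq] at s60
      exact no_walk5 _ _ _ _ _ s23 s34 s45 s56 s60
    · rw [← heq] at s23
      exact no_walk3 _ _ _ s01 s12 s23
    · rw [heq] at s60
      exact no_walk3 _ _ _ s45 s56 s60
    · rw [← heq] at s45
      exact no_walk5 _ _ _ _ _ s01 s12 s23 s34 s45
    · exact s60.ne heq.symm
  have cover : ∀ a b : ZMod 12, a ≠ b →
      (b - a = 1 ∨ b - a = 2 ∨ b - a = 3 ∨ b - a = 4 ∨ b - a = 5 ∨ b - a = 6) ∨
      (a - b = 1 ∨ a - b = 2 ∨ a - b = 3 ∨ a - b = 4 ∨ a - b = 5 ∨ a - b = 6) := by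
    decide +kernel
  intro a b hab
  by_contra hne
  rcases cover a b hne with hc | hc
  · exact key a (b - a) hc (by rw [add_sub_cancel]; exact hab)
  · exact key b (a - b) hc (by rw [add_sub_cancel]; exact hab.symm)

/-- The inverse of an endomorphism of `mobius12` is an endomorphism. -/
theorem endo_inverse (σ : Equiv.Perm (ZMod 12))
    (h : ∀ i j, mobius12.Adj i j → mobius12.Adj (σ i) (σ j)) :
    ∀ i j, mobius12.Adj i j → mobius12.Adj (σ.symm i) (σ.symm j) := by
  let F : {p : ZMod 12 × ZMod 12 // mobius12.Adj p.1 p.2} →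
      {p : ZMod 12 × ZMod 12 // mobius12.Adj p.1 p.2} := fun p => ⟨(σ p.1.1, σ p.1.2), h _ _ p.2⟩
  have hF : Function.Injective F := by
    rintro ⟨⟨a, b⟩, hab⟩ ⟨⟨c, d⟩, hcd⟩ heq
    have h1 : (σ a, σ b) = (σ c, σ d) := congrArg Subtype.val heq
    rw [Prod.mk.injEq, σ.apply_eq_iff_eq, σ.apply_eq_iff_eq] at h1
    apply Subtype.ext
    simp only [Prod.mk.injEq]
    exact h1
  have hFs : Function.Surjective F := Finite.surjective_of_injective hF
  intro i j hij
  obtain ⟨⟨⟨a, b⟩, hab⟩, he⟩ := hFs ⟨(i, j), hij⟩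
  have h1 : (σ a, σ b) = (i, j) := congrArg Subtype.val he
  rw [Prod.mk.injEq] at h1
  rw [← h1.1, ← h1.2, Equiv.symm_apply_apply, Equiv.symm_apply_apply]
  exact hab

/-- An explicit embedding of the Möbius ladder in the blow-up of the 5-cycle. -/
def embM : ZMod 12 → Fin 5 × Fin 3 := fun i =>
    (![(0, 0), (4, 0), (3, 0), (2, 0), (1, 0), (0, 1), (4, 1), (3, 1), (2, 1), (1, 1), (0, 2), (4, 2)] :
      Fin 12 → Fin 5 × Fin 3) i

lemma embM_adj : ∀ a b : ZMod 12, (a - b = 1 ∨ a - b = 6 ∨ b - a = 1) →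
    ((embM a).1 - (embM b).1 = 1 ∨ (embM b).1 - (embM a).1 = 1) := by
  decide +kernel

lemma embM_injective : Function.Injective embM := by
  intro a b
  revert a b
  decide +kernel

lemma embM_hom {a b : ZMod 12} (hab : mobius12.Adj a b) : blowC5.Adj (embM a) (embM b) := by
  rw [mobius12_adj] at hab
  show (cycleGraph 5).Adj (embM a).1 (embM b).1
  rw [cycleGraph_adj]
  exact embM_adj a b hab

/-- `mobius12` is a subgraph of the blow-up of the 5-cycle. -/
theorem mobius12_isContained : mobius12 ⊑ blowC5 :=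
  ⟨⟨⟨embM, embM_hom⟩, embM_injective⟩⟩

end Pool.Agent.Lib.MP_155693_co
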