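import Mathlib

/-!
# A large set without non-trivial solutions of `x + y + z = 3 w`

The points `(v, |v|²)` of a discrete paraboloid.
-/

namespace Pool.Agent.Lib.MP_155693_co

open Finset

/-- `S` has only trivial solutions of `x + y + z = 3 w`. -/
def NoSol {A : Type} [AddCommGroup A] (S : Set A) : Prop :=
  ∀ a ∈ S, ∀ b ∈ S, ∀ c ∈ S, ∀ e ∈ S, a + b + c = 3 • e → a = e ∧ b = e ∧ c = e

/-- the ambient group -/
abbrev Grp (k d : ℕ) : Type := (Fin k → ZMod (3 * d)) × ZMod (3 * (k * d ^ 2))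

/-- the points of the paraboloid -/
def par (k d : ℕ) (v : Fin k → Fin d) : Grp k d :=
  (fun i => ((v i : ℕ) : ZMod (3 * d)), ((∑ i, (v i : ℕ) ^ 2 : ℕ) : ZMod (3 * (k * d ^ 2))))

lemma sum_sq_lt {k d : ℕ} (hk : 0 < k) (v : Fin k → Fin d) :
    ∑ i, (v i : ℕ) ^ 2 < k * d ^ 2 := by
  have : Nonempty (Fin k) := ⟨⟨0, hk⟩⟩
  calc ∑ i, (v i : ℕ) ^ 2 < ∑ i : Fin k, d ^ 2 := by
        refine Finset.sum_lt_sum_of_nonempty Finset.univ_nonempty ?_
        intro i _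
        exact Nat.pow_lt_pow_left (v i).2 (by norm_num)
    _ = k * d ^ 2 := by simp

lemma par_sol {k d : ℕ} (hk : 0 < k) (a b c e : Fin k → Fin d)
    (h : par k d a + par k d b + par k d c = 3 • par k d e) : a = e ∧ b = e ∧ c = e := by
  have e3 : 3 • par k d e = par k d e + par k d e + par k d e := by abel
  rw [e3] at h
  have h1 : ∀ i, (a i : ℕ) + (b i : ℕ) + (c i : ℕ) = 3 * (e i : ℕ) := by
    intro i
    have := congrFun (congrArg Prod.fst h) i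
    simp only [par, Prod.fst_add, Pi.add_apply] at this
    have h2 : (((a i : ℕ) + (b i : ℕ) + (c i : ℕ) : ℕ) : ZMod (3 * d)) =
        ((3 * (e i : ℕ) : ℕ) : ZMod (3 * d)) := by
      push_cast
      rw [this]
      ring
    rw [ZMod.natCast_eq_natCast_iff'] at h2
    have ha := (a i).2
    have hb := (b i).2
    have hc := (c i).2
    have he := (e i).2
    rw [Nat.mod_eq_of_lt (by omega), Nat.mod_eq_of_lt (by omega)] at h2
    exact h2
  have h2 : (∑ i, (a i : ℕ) ^ 2) + (∑ i, (b i : ℕ) ^ 2) + (∑ i, (c i : ℕ) ^ 2) =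
      3 * ∑ i, (e i : ℕ) ^ 2 := by
    have := congrArg Prod.snd h
    simp only [par, Prod.snd_add] at this
    have h2 : (((∑ i, (a i : ℕ) ^ 2) + (∑ i, (b i : ℕ) ^ 2) + (∑ i, (c i : ℕ) ^ 2) : ℕ) :
        ZMod (3 * (k * d ^ 2))) = ((3 * ∑ i, (e i : ℕ) ^ 2 : ℕ) : ZMod (3 * (k * d ^ 2))) := by
      rw [Nat.cast_add, Nat.cast_add, Nat.cast_mul, this, Nat.cast_ofNat]
      ring
    rw [ZMod.natCast_eq_natCast_iff'] at h2
    have ha := sum_sq_lt hk a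
    have hb := sum_sq_lt hk b
    have hc := sum_sq_lt hk c
    have he := sum_sq_lt hk e
    rw [Nat.mod_eq_of_lt (by omega), Nat.mod_eq_of_lt (by omega)] at h2
    exact h2
  -- the sum of squares of the differences vanishes
  have h3 : ∑ i, ((((a i : ℕ) : ℤ) - (e i : ℕ)) ^ 2 + (((b i : ℕ) : ℤ) - (e i : ℕ)) ^ 2 +
      (((c i : ℕ) : ℤ) - (e i : ℕ)) ^ 2) = 0 := by
    have h4 : ∀ i, ((((a i : ℕ) : ℤ) - (e i : ℕ)) ^ 2 + (((b i : ℕ) : ℤ) - (e i : ℕ)) ^ 2 +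
      (((c i : ℕ) : ℤ) - (e i : ℕ)) ^ 2) = ((a i : ℕ) : ℤ) ^ 2 + ((b i : ℕ) : ℤ) ^ 2 +
        ((c i : ℕ) : ℤ) ^ 2 - 3 * ((e i : ℕ) : ℤ) ^ 2 := by
      intro i
      have : ((a i : ℕ) : ℤ) + ((b i : ℕ) : ℤ) + ((c i : ℕ) : ℤ) = 3 * ((e i : ℕ) : ℤ) := by
        exact_mod_cast h1 i
      have hc : ((c i : ℕ) : ℤ) = 3 * ((e i : ℕ) : ℤ) - ((a i : ℕ) : ℤ) - ((b i : ℕ) : ℤ) := by
        linarith
      rw [hc]
      ring
    rw [sum_congr rfl fun i _ => h4 i, sum_sub_distrib, sum_add_distrib, sum_add_distrib,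
      ← mul_sum]
    have : ((∑ i, (a i : ℕ) ^ 2 : ℕ) : ℤ) + ((∑ i, (b i : ℕ) ^ 2 : ℕ) : ℤ) +
        ((∑ i, (c i : ℕ) ^ 2 : ℕ) : ℤ) = 3 * ((∑ i, (e i : ℕ) ^ 2 : ℕ) : ℤ) := by
      exact_mod_cast h2
    push_cast at this
    linarith
  have h5 : ∀ i, ((((a i : ℕ) : ℤ) - (e i : ℕ)) ^ 2 + (((b i : ℕ) : ℤ) - (e i : ℕ)) ^ 2 +
      (((c i : ℕ) : ℤ) - (e i : ℕ)) ^ 2) = 0 := by
    intro i
    exact (Finset.sum_eq_zero_iff_of_nonneg (fun i _ => by positivity)).mp h3 i (Finset.mem_univ i)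
  have h6 : ∀ i, a i = e i ∧ b i = e i ∧ c i = e i := by
    intro i
    have h7 := h5 i
    have q1 := sq_nonneg (((a i : ℕ) : ℤ) - (e i : ℕ))
    have q2 := sq_nonneg (((b i : ℕ) : ℤ) - (e i : ℕ))
    have q3 := sq_nonneg (((c i : ℕ) : ℤ) - (e i : ℕ))
    have r1 : (((a i : ℕ) : ℤ) - (e i : ℕ)) ^ 2 = 0 := by linarith
    have r2 : (((b i : ℕ) : ℤ) - (e i : ℕ)) ^ 2 = 0 := by linarith
    have r3 : (((c i : ℕ) : ℤ) - (e i : ℕ)) ^ 2 = 0 := by linarith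
    have s1 := pow_eq_zero_iff (two_ne_zero) |>.mp r1
    have s2 := pow_eq_zero_iff (two_ne_zero) |>.mp r2
    have s3 := pow_eq_zero_iff (two_ne_zero) |>.mp r3
    refine ⟨Fin.ext ?_, Fin.ext ?_, Fin.ext ?_⟩ <;> omega
  exact ⟨funext fun i => (h6 i).1, funext fun i => (h6 i).2.1, funext fun i => (h6 i).2.2⟩

lemma par_injective {k d : ℕ} (hk : 0 < k) : Function.Injective (par k d) := by
  intro a b hab
  have : par k d a + par k d b + par k d b = 3 • par k d b := by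
    rw [hab]
    abel
  exact (par_sol hk a b b b this).1

open scoped Classical in
/-- the paraboloid as a finite set -/
noncomputable def parS (k d : ℕ) : Finset (Grp k d) := univ.image (par k d)

lemma parS_noSol {k d : ℕ} (hk : 0 < k) : NoSol (parS k d : Set (Grp k d)) := by
  intro a ha b hb c hc e he h
  simp only [parS, coe_image, coe_univ, Set.image_univ, Set.mem_range] at ha hb hc he
  obtain ⟨a, rfl⟩ := ha
  obtain ⟨b, rfl⟩ := hb
  obtain ⟨c, rfl⟩ := hc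
  obtain ⟨e, rfl⟩ := he
  obtain ⟨h1, h2, h3⟩ := par_sol hk a b c e h
  rw [h1, h2, h3]
  exact ⟨rfl, rfl, rfl⟩

lemma card_parS {k d : ℕ} (hk : 0 < k) : #(parS k d) = d ^ k := by
  classical
  unfold parS
  rw [card_image_of_injective _ (par_injective hk)]
  simp

end Pool.Agent.Lib.MP_155693_co
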