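import Mathlib
import Pool.Agent.Lib.MP_155693_co.Defs
import Pool.Agent.Lib.MP_155693_co.Mobius
import Pool.Agent.Lib.MP_155693_co.Parab

/-!
# The construction for the lower bound

A graph whose vertex set is divided in 12 parts following the Möbius ladder, in which the
4-cycle of parts `0, 1, 7, 6` carries a sparse structure given by a set without non-trivial
solutions of `x + y + z = 3 w`.
-/

namespace Pool.Agent.Lib.MP_155693_co

open Finset SimpleGraph

section construction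

variable {A : Type} [AddCommGroup A]

/-- the vertex set -/
abbrev VV (A : Type) (K : ℕ) : Type := (ZMod 12 × A) ⊕ (Fin 4 × A × Fin K)

/-- the part of a vertex -/
def pt {K : ℕ} : VV A K → ZMod 12
  | .inl p => p.1
  | .inr p => 3 * ((p.1 : ℕ) : ZMod 12) + 2

/-- the group coordinate of a vertex -/
def co {K : ℕ} : VV A K → A
  | .inl p => p.2
  | .inr p => p.2.1

/-- the differences allowed between the parts `i` and `j` -/
def Rl (S : Set A) (i j : ZMod 12) (z : A) : Prop :=
  (i = 0 → j = 1 → z ∈ S) ∧ (i = 1 → j = 7 → z ∈ S) ∧ (i = 7 → j = 6 → z ∈ S) ∧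
    (i = 0 → j = 6 → ∃ s ∈ S, z = 3 • s)

/-- the graph -/
def gr (S : Set A) (K : ℕ) : SimpleGraph (VV A K) where
  Adj u v := mobius12.Adj (pt u) (pt v) ∧ Rl S (pt u) (pt v) (co v - co u) ∧
    Rl S (pt v) (pt u) (co u - co v)
  symm := ⟨fun _ _ h => ⟨h.1.symm, h.2.2, h.2.1⟩⟩
  loopless := ⟨fun u h => mobius12.loopless.irrefl (pt u) h.1⟩

lemma big_part : ∀ i : ZMod 12, ∃ j : Fin 4,
    (i - (3 * ((j : ℕ) : ZMod 12) + 2) = 1 ∨ i - (3 * ((j : ℕ) : ZMod 12) + 2) = 6 ∨
      (3 * ((j : ℕ) : ZMod 12) + 2) - i = 1) := by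
  decide +kernel

lemma big_ne : ∀ j : Fin 4, (3 * ((j : ℕ) : ZMod 12) + 2) ≠ 0 ∧ (3 * ((j : ℕ) : ZMod 12) + 2) ≠ 1 ∧
    (3 * ((j : ℕ) : ZMod 12) + 2) ≠ 6 ∧ (3 * ((j : ℕ) : ZMod 12) + 2) ≠ 7 := by
  decide +kernel

/-- Every vertex is completely joined to a big part. -/
lemma exists_big (S : Set A) (K : ℕ) (v : VV A K) :
    ∃ j : Fin 4, ∀ y : A × Fin K, (gr S K).Adj v (Sum.inr (j, y)) := by
  obtain ⟨j, hj⟩ := big_part (pt v)
  refine ⟨j, fun y => ⟨(mobius12_adj _ _).mpr hj, ?_, ?_⟩⟩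
  · obtain ⟨h0, h1, h6, h7⟩ := big_ne j
    exact ⟨fun _ h => absurd h h1, fun _ h => absurd h h7, fun _ h => absurd h h6,
      fun _ h => absurd h h6⟩
  · obtain ⟨h0, h1, h6, h7⟩ := big_ne j
    exact ⟨fun h _ => absurd h h0, fun h _ => absurd h h1, fun h _ => absurd h h7,
      fun h _ => absurd h h0⟩

lemma degree_lower [Fintype A] (S : Set A) (K : ℕ) [DecidableRel (gr S K).Adj] (v : VV A K) :
    Fintype.card A * K ≤ (gr S K).degree v := by
  classical
  obtain ⟨j, hj⟩ := exists_big S K v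
  have h1 : (univ : Finset (A × Fin K)).image (fun y => (Sum.inr (j, y) : VV A K)) ⊆
      (gr S K).neighborFinset v := by
    intro u hu
    rw [mem_image] at hu
    obtain ⟨y, _, rfl⟩ := hu
    rw [mem_neighborFinset]
    exact hj y
  have h2 := card_le_card h1
  rw [card_image_of_injective, card_neighborFinset_eq_degree] at h2
  · simpa using h2
  · intro y z hyz
    simpa using hyz

/-- the coefficients of the standard copies -/
def cf : ZMod 12 → ℕ := fun i => (![0, 1, 0, 1, 0, 1, 3, 2, 1, 0, 1, 2] : Fin 12 → ℕ) i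

lemma cf_diff : ∀ i j : ZMod 12, (i - j = 1 ∨ i - j = 6 ∨ j - i = 1) →
    (cf j = cf i + 1 ∨ cf j = cf i + 2 ∨ cf j = cf i + 3 ∨
      cf i = cf j + 1 ∨ cf i = cf j + 2 ∨ cf i = cf j + 3) := by
  decide +kernel

lemma Rl_std {S : Set A} {s x : A} (hs : s ∈ S) (i j : ZMod 12) :
    Rl S i j ((x + cf j • s) - (x + cf i • s)) := by
  have c0 : cf 0 = 0 := rfl
  have c1 : cf 1 = 1 := rfl
  have c7 : cf 7 = 2 := rfl
  have c6 : cf 6 = 3 := rfl
  refine ⟨?_, ?_, ?_, ?_⟩
  · rintro rfl rfl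
    have : (x + cf 1 • s) - (x + cf 0 • s) = s := by
      rw [c0, c1]; abel
    rw [this]; exact hs
  · rintro rfl rfl
    have : (x + cf 7 • s) - (x + cf 1 • s) = s := by
      rw [c7, c1]; abel
    rw [this]; exact hs
  · rintro rfl rfl
    have : (x + cf 6 • s) - (x + cf 7 • s) = s := by
      rw [c7, c6]; abel
    rw [this]; exact hs
  · rintro rfl rfl
    refine ⟨s, hs, ?_⟩
    rw [c0, c6]; abel

/-- the standard copies of the Möbius ladder -/
def cp (S : Set A) (K : ℕ) (p : A × S) : mobius12.Copy (gr S K) :=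
  ⟨⟨fun i => Sum.inl (i, p.1 + cf i • (p.2 : A)), fun {i j} h =>
    ⟨h, Rl_std p.2.2 i j, Rl_std p.2.2 j i⟩⟩, fun i j h => by
      have := Sum.inl_injective h
      exact (Prod.mk.inj this).1⟩

lemma cp_apply (S : Set A) (K : ℕ) (p : A × S) (i : ZMod 12) :
    cp S K p i = Sum.inl (i, p.1 + cf i • (p.2 : A)) := rfl

lemma cp_injective (S : Set A) (K : ℕ) : Function.Injective (cp S K) := by
  rintro ⟨x, s⟩ ⟨y, t⟩ h
  have h0 : (Sum.inl (0, x + cf 0 • (s : A)) : VV A K) = Sum.inl (0, y + cf 0 • (t : A)) := by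
    rw [← cp_apply S K (x, s) 0, ← cp_apply S K (y, t) 0, h]
  have h1 : (Sum.inl (1, x + cf 1 • (s : A)) : VV A K) = Sum.inl (1, y + cf 1 • (t : A)) := by
    rw [← cp_apply S K (x, s) 1, ← cp_apply S K (y, t) 1, h]
  have c0 : cf 0 = 0 := rfl
  have c1 : cf 1 = 1 := rfl
  rw [c0] at h0
  rw [c1] at h1
  simp only [zero_smul, add_zero, Sum.inl.injEq, Prod.mk.injEq, true_and] at h0
  simp only [one_smul, Sum.inl.injEq, Prod.mk.injEq, true_and] at h1
  rw [h0] at h1
  have := add_left_cancel h1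
  rw [h0, Subtype.ext this]

lemma smul_inj {S : Set A} (hS : NoSol S) {s t : A} (hs : s ∈ S) (ht : t ∈ S) (m : ℕ)
    (hm : m = 1 ∨ m = 2 ∨ m = 3) (h : m • s = m • t) : s = t := by
  rcases hm with rfl | rfl | rfl
  · simpa using h
  · have : s + s + t = 3 • t := by
      have e1 : s + s + t = 2 • s + t := by abel
      rw [e1, h]; abel
    exact (hS s hs s hs t ht t ht this).1
  · have : s + s + s = 3 • t := by
      have e1 : s + s + s = 3 • s := by abel
      rw [e1, h]
    exact (hS s hs s hs s hs t ht this).1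

/-- The standard copies are edge-disjoint. -/
lemma cp_disjoint {S : Set A} (hS : NoSol S) (K : ℕ) (p q : A × S) (i j i' j' : ZMod 12)
    (hij : mobius12.Adj i j)
    (h1 : cp S K p i = cp S K q i') (h2 : cp S K p j = cp S K q j') : p = q := by
  obtain ⟨x, s⟩ := p
  obtain ⟨y, t⟩ := q
  rw [cp_apply, cp_apply, Sum.inl.injEq, Prod.mk.injEq] at h1 h2
  obtain ⟨e1, h1⟩ := h1
  obtain ⟨e2, h2⟩ := h2
  rw [← e1] at h1
  rw [← e2] at h2
  simp only at h1 h2
  have hst : (s : A) = t := by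
    rcases cf_diff i j ((mobius12_adj i j).mp hij) with h | h | h | h | h | h
    all_goals
      first
        | (rw [h, add_smul, add_smul, ← add_assoc, ← add_assoc, h1] at h2
           refine smul_inj hS s.2 t.2 _ (by norm_num) (add_left_cancel h2))
        | (rw [h, add_smul, add_smul, ← add_assoc, ← add_assoc, h2] at h1
           refine smul_inj hS s.2 t.2 _ (by norm_num) (add_left_cancel h1))
  rw [hst] at h1
  rw [add_right_cancel h1, Subtype.ext hst]

end construction

end Pool.Agent.Lib.MP_155693_co
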