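import Mathlib
import Pool.Agent.Lib.MP_155693_co.Construction

/-!
# The graph of `Construction` contains few copies of the Möbius ladder
-/

namespace Pool.Agent.Lib.MP_155693_co

open Finset SimpleGraph

section counting

variable {A : Type} [AddCommGroup A]

/-- The map between parts induced by a copy, as a permutation. -/
noncomputable def sg (S : Set A) (K : ℕ) (f : mobius12.Copy (gr S K)) : Equiv.Perm (ZMod 12) :=
  Equiv.ofBijective (fun i => pt (f i)) (Finite.injective_iff_bijective.mp
    (endo_injective _ fun _ _ h => (f.toHom.map_adj h).1))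

lemma sg_apply (S : Set A) (K : ℕ) (f : mobius12.Copy (gr S K)) (i : ZMod 12) :
    sg S K f i = pt (f i) := rfl

/-- The copy reindexed by the parts. -/
noncomputable def gg (S : Set A) (K : ℕ) (f : mobius12.Copy (gr S K)) (i : ZMod 12) : VV A K :=
  f ((sg S K f).symm i)

lemma pt_gg (S : Set A) (K : ℕ) (f : mobius12.Copy (gr S K)) (i : ZMod 12) :
    pt (gg S K f i) = i := by
  have : sg S K f ((sg S K f).symm i) = i := (sg S K f).apply_symm_apply i
  rw [sg_apply] at this
  exact this

lemma gg_adj (S : Set A) (K : ℕ) (f : mobius12.Copy (gr S K)) {i j : ZMod 12}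
    (h : mobius12.Adj i j) : (gr S K).Adj (gg S K f i) (gg S K f j) :=
  f.toHom.map_adj (endo_inverse (sg S K f) (fun _ _ h => (f.toHom.map_adj h).1) i j h)

lemma adj_co (S : Set A) (K : ℕ) (f : mobius12.Copy (gr S K)) {i j : ZMod 12}
    (h : mobius12.Adj i j) : Rl S i j (co (gg S K f j) - co (gg S K f i)) := by
  have := (gg_adj S K f h).2.1
  rw [pt_gg, pt_gg] at this
  exact this

/-- The four coordinates in the sparse 4-cycle are in arithmetic progression. -/
lemma progression {S : Set A} (hS : NoSol S) (K : ℕ) (f : mobius12.Copy (gr S K)) :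
    co (gg S K f 7) = co (gg S K f 1) + (co (gg S K f 1) - co (gg S K f 0)) ∧
    co (gg S K f 6) = co (gg S K f 7) + (co (gg S K f 1) - co (gg S K f 0)) := by
  have a01 : mobius12.Adj 0 1 := (mobius12_adj 0 1).mpr (by decide)
  have a17 : mobius12.Adj 1 7 := (mobius12_adj 1 7).mpr (by decide)
  have a76 : mobius12.Adj 7 6 := (mobius12_adj 7 6).mpr (by decide)
  have a06 : mobius12.Adj 0 6 := (mobius12_adj 0 6).mpr (by decide)
  have r1 := (adj_co S K f a01).1 rfl rfl
  have r2 := (adj_co S K f a17).2.1 rfl rfl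
  have r3 := (adj_co S K f a76).2.2.1 rfl rfl
  obtain ⟨s, hs, r4⟩ := (adj_co S K f a06).2.2.2 rfl rfl
  generalize co (gg S K f 0) = x0 at *
  generalize co (gg S K f 1) = x1 at *
  generalize co (gg S K f 7) = x7 at *
  generalize co (gg S K f 6) = x6 at *
  have hsum : (x1 - x0) + (x7 - x1) + (x6 - x7) = 3 • s := by
    rw [← r4]; abel
  obtain ⟨e1, e2, e3⟩ := hS _ r1 _ r2 _ r3 s hs hsum
  constructor
  · rw [e1, ← e2]; abel
  · rw [e1, ← e3]; abel

omit [AddCommGroup A] in
/-- A vertex of a small part is determined by its coordinates. -/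
lemma small_part {K : ℕ} (u v : VV A K) (hu : pt u = 0 ∨ pt u = 1 ∨ pt u = 6 ∨ pt u = 7)
    (h : pt u = pt v) (hc : co u = co v) : u = v := by
  have hbig : ∀ w : Fin 4 × A × Fin K, pt (Sum.inr w : VV A K) ≠ 0 ∧ pt (Sum.inr w : VV A K) ≠ 1 ∧
      pt (Sum.inr w : VV A K) ≠ 6 ∧ pt (Sum.inr w : VV A K) ≠ 7 := fun w => big_ne w.1
  rcases u with u | u
  · rcases v with v | v
    · exact congrArg Sum.inl (Prod.ext h hc)
    · exfalso
      rw [h] at hu
      obtain ⟨h0, h1, h6, h7⟩ := hbig v
      rcases hu with hu | hu | hu | hu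
      · exact h0 hu
      · exact h1 hu
      · exact h6 hu
      · exact h7 hu
  · exfalso
    obtain ⟨h0, h1, h6, h7⟩ := hbig u
    rcases hu with hu | hu | hu | hu
    · exact h0 hu
    · exact h1 hu
    · exact h6 hu
    · exact h7 hu

/-- the parts outside the sparse 4-cycle -/
def oth : Fin 8 → ZMod 12 := fun m => (![2, 3, 4, 5, 8, 9, 10, 11] : Fin 8 → Fin 12) m

lemma oth_cover : ∀ i : ZMod 12, i = 0 ∨ i = 1 ∨ i = 6 ∨ i = 7 ∨ ∃ m : Fin 8, oth m = i := by
  decide +kernel

/-- The encoding of copies. -/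
noncomputable def enc (S : Set A) (K : ℕ) (f : mobius12.Copy (gr S K)) :
    Equiv.Perm (ZMod 12) × A × A × (Fin 8 → VV A K) :=
  (sg S K f, co (gg S K f 0), co (gg S K f 1), fun m => gg S K f (oth m))

lemma enc_injective {S : Set A} (hS : NoSol S) (K : ℕ) : Function.Injective (enc S K) := by
  intro f g h
  simp only [enc, Prod.mk.injEq] at h
  obtain ⟨h1, h2, h3, h4⟩ := h
  obtain ⟨pf7, pf6⟩ := progression hS K f
  obtain ⟨pg7, pg6⟩ := progression hS K g
  have h7 : co (gg S K f 7) = co (gg S K g 7) := by rw [pf7, pg7, h2, h3]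
  have h6 : co (gg S K f 6) = co (gg S K g 6) := by rw [pf6, pg6, h2, h3, h7]
  have key : ∀ i, gg S K f i = gg S K g i := by
    intro i
    rcases oth_cover i with rfl | rfl | rfl | rfl | ⟨m, rfl⟩
    · exact small_part _ _ (Or.inl (pt_gg S K f 0)) (by rw [pt_gg, pt_gg]) h2
    · exact small_part _ _ (Or.inr (Or.inl (pt_gg S K f 1))) (by rw [pt_gg, pt_gg]) h3
    · exact small_part _ _ (Or.inr (Or.inr (Or.inl (pt_gg S K f 6)))) (by rw [pt_gg, pt_gg]) h6
    · exact small_part _ _ (Or.inr (Or.inr (Or.inr (pt_gg S K f 7)))) (by rw [pt_gg, pt_gg]) h7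
    · exact congrFun h4 m
  apply Copy.ext
  intro a
  have h5 := key (sg S K f a)
  unfold gg at h5
  rw [← h1, Equiv.symm_apply_apply] at h5
  exact h5

/-- **Few copies.** -/
theorem few_copies [Fintype A] {S : Set A} (hS : NoSol S) (K : ℕ) :
    (gr S K).labelledCopyCount mobius12 ≤
      Fintype.card (Equiv.Perm (ZMod 12)) * (Fintype.card A ^ 2 *
        Fintype.card (VV A K) ^ 8) := by
  classical
  rw [labelledCopyCount_eq_natCard]
  have h := Nat.card_le_card_of_injective (enc S K) (enc_injective hS K)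
  refine h.trans (le_of_eq ?_)
  rw [Nat.card_prod, Nat.card_prod, Nat.card_prod, Nat.card_fun]
  simp only [Nat.card_eq_fintype_card, Fintype.card_fin]
  ring

end counting

end Pool.Agent.Lib.MP_155693_co
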