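import Mathlib

/-!
# Many 5-cycles

If a graph of minimum degree at least `γ n`, `γ > 1/5`, contains many pairwise edge-disjoint
5-cycles, then it contains many homomorphic images of the 5-cycle.
-/

namespace Pool.Agent.Lib.MP_155693_co

open Finset SimpleGraph

lemma sum_inv_fiber {K Y : Type*} [Fintype Y] [DecidableEq Y] (S : Finset K) (φ : K → Y) :
    ∑ k ∈ S, (1 : ℝ) / (#{g ∈ S | φ g = φ k}) ≤ Fintype.card Y := by
  classical
  have h1 : ∑ k ∈ S, (1 : ℝ) / (#{g ∈ S | φ g = φ k})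
      = ∑ y : Y, ∑ k ∈ S with φ k = y, (1 : ℝ) / (#{g ∈ S | φ g = φ k}) :=
    (Finset.sum_fiberwise S φ _).symm
  rw [h1]
  calc ∑ y : Y, ∑ k ∈ S with φ k = y, (1 : ℝ) / (#{g ∈ S | φ g = φ k})
      ≤ ∑ y : Y, (1 : ℝ) := by
        refine sum_le_sum fun y _ => ?_
        have : ∑ k ∈ S with φ k = y, (1 : ℝ) / (#{g ∈ S | φ g = φ k})
            = ∑ k ∈ S with φ k = y, (1 : ℝ) / (#{g ∈ S | φ g = y}) := by
          refine sum_congr rfl fun k hk => ?_
          rw [(mem_filter.mp hk).2]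
        rw [this, sum_const, nsmul_eq_mul, mul_one_div]
        exact div_self_le_one _
    _ = Fintype.card Y := by simp

lemma amgm3 {x y z : ℝ} (hx : 0 < x) (hy : 0 < y) (hz : 0 < z) (h : x * y * z = 1) :
    3 ≤ x + y + z := by
  by_contra hlt
  push Not at hlt
  have hs : 0 < x + y + z := by positivity
  have h3 : (x + y + z) ^ 3 < 27 := by
    have : (x + y + z) ^ 3 < 3 ^ 3 := pow_lt_pow_left₀ hlt hs.le (by norm_num)
    linarith
  have h4 : 27 * (x * y * z) ≤ (x + y + z) ^ 3 := by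
    nlinarith [mul_nonneg hx.le (sq_nonneg (y - z)), mul_nonneg hy.le (sq_nonneg (z - x)),
      mul_nonneg hz.le (sq_nonneg (x - y)), mul_nonneg hs.le (sq_nonneg (x - y)),
      mul_nonneg hs.le (sq_nonneg (y - z)), mul_nonneg hs.le (sq_nonneg (z - x))]
  rw [h] at h4
  linarith

/-- A weak form of Sidorenko's inequality for the path with three edges. -/
lemma walk3 {K Y Z : Type*} [Fintype Y] [DecidableEq Y] [Fintype Z] [DecidableEq Z] (N : ℕ)
    (hY : Fintype.card Y = N) (hZ : Fintype.card Z = N)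
    (S : Finset K) (φ : K → Y) (ψ : K → Z) :
    (#S : ℝ) ^ 3 ≤ (N : ℝ) ^ 2 *
      ∑ k ∈ S, (#{g ∈ S | φ g = φ k} : ℝ) * (#{g ∈ S | ψ g = ψ k} : ℝ) := by
  classical
  rcases S.eq_empty_or_nonempty with hS | hS
  · subst hS; simp
  obtain ⟨k0, hk0⟩ := hS
  have hM : (0 : ℝ) < #S := by exact_mod_cast Finset.card_pos.mpr ⟨k0, hk0⟩
  have hN : (0 : ℝ) < N := by
    have : 0 < Fintype.card Y := Fintype.card_pos_iff.mpr ⟨φ k0⟩
    rw [hY] at this
    exact_mod_cast this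
  set M : ℝ := (#S : ℝ) with hMdef
  set T : ℝ := ∑ k ∈ S, (#{g ∈ S | φ g = φ k} : ℝ) * (#{g ∈ S | ψ g = ψ k} : ℝ) with hT
  set l : ℝ := M / N with hl
  have hlpos : 0 < l := by positivity
  have key : ∀ k ∈ S, (3 : ℝ) ≤ (#{g ∈ S | φ g = φ k} : ℝ) * (#{g ∈ S | ψ g = ψ k} : ℝ) / l ^ 2
      + l * (1 / (#{g ∈ S | φ g = φ k} : ℝ)) + l * (1 / (#{g ∈ S | ψ g = ψ k} : ℝ)) := by
    intro k hk
    have ha' : 0 < #{g ∈ S | φ g = φ k} := Finset.card_pos.mpr ⟨k, by simp [hk]⟩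
    have hb' : 0 < #{g ∈ S | ψ g = ψ k} := Finset.card_pos.mpr ⟨k, by simp [hk]⟩
    have ha : (0 : ℝ) < #{g ∈ S | φ g = φ k} := by exact_mod_cast ha'
    have hb : (0 : ℝ) < #{g ∈ S | ψ g = ψ k} := by exact_mod_cast hb'
    refine amgm3 (by positivity) (by positivity) (by positivity) ?_
    field_simp
  have sum1 : ∑ k ∈ S, (3 : ℝ) ≤ T / l ^ 2 + l * N + l * N := by
    calc ∑ k ∈ S, (3 : ℝ) ≤ ∑ k ∈ S, ((#{g ∈ S | φ g = φ k} : ℝ) * (#{g ∈ S | ψ g = ψ k} : ℝ) / l ^ 2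
      + l * (1 / (#{g ∈ S | φ g = φ k} : ℝ)) + l * (1 / (#{g ∈ S | ψ g = ψ k} : ℝ))) :=
          sum_le_sum key
      _ = T / l ^ 2 + l * (∑ k ∈ S, (1 / (#{g ∈ S | φ g = φ k} : ℝ))) +
            l * (∑ k ∈ S, (1 / (#{g ∈ S | ψ g = ψ k} : ℝ))) := by
          rw [sum_add_distrib, sum_add_distrib, ← sum_div, ← mul_sum, ← mul_sum]
      _ ≤ _ := by
          have h1 := sum_inv_fiber S φ
          have h2 := sum_inv_fiber S ψ
          rw [hY] at h1
          rw [hZ] at h2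
          gcongr
  rw [sum_const, nsmul_eq_mul] at sum1
  have hlN : l * N = M := by rw [hl]; field_simp
  rw [hlN] at sum1
  have h5 : M ≤ T / l ^ 2 := by
    have : (#S : ℝ) * 3 = M * 3 := rfl
    linarith
  rw [le_div_iff₀ (by positivity), hl, div_pow] at h5
  have h6 : M * (M ^ 2 / N ^ 2) = M ^ 3 / N ^ 2 := by ring
  rw [h6, div_le_iff₀ (by positivity)] at h5
  linarith

/-- Many vertices see two vertices of a given 5-cycle. -/
lemma many_w {V : Type*} [Fintype V] (G : SimpleGraph V) [DecidableRel G.Adj] (u : Fin 5 → V)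
    (γ : ℝ) (hγ : ∀ v, γ * Fintype.card V ≤ G.degree v) :
    (5 * γ - 1) / 4 * Fintype.card V ≤ (#{w : V | 2 ≤ #{i : Fin 5 | G.Adj w (u i)}} : ℝ) := by
  classical
  have h1 : ∑ i : Fin 5, (G.degree (u i) : ℝ) = ∑ w : V, (#{i : Fin 5 | G.Adj w (u i)} : ℝ) := by
    have : ∀ i : Fin 5, (G.degree (u i) : ℝ) = ∑ w : V, if G.Adj w (u i) then (1 : ℝ) else 0 := by
      intro i
      rw [← SimpleGraph.card_neighborFinset_eq_degree, SimpleGraph.neighborFinset_eq_filter,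
        Finset.card_filter]
      push_cast
      refine sum_congr rfl fun w _ => ?_
      simp only [G.adj_comm]
    rw [sum_congr rfl fun i _ => this i, sum_comm]
    refine sum_congr rfl fun w _ => ?_
    rw [Finset.card_filter]
    push_cast
    rfl
  have h2 : ∑ i : Fin 5, (G.degree (u i) : ℝ) ≥ 5 * (γ * Fintype.card V) := by
    have : ∑ i : Fin 5, (γ * Fintype.card V) ≤ ∑ i : Fin 5, (G.degree (u i) : ℝ) :=
      sum_le_sum fun i _ => hγ (u i)
    simpa using this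
  have h3 : ∑ w : V, (#{i : Fin 5 | G.Adj w (u i)} : ℝ) ≤
      ∑ w : V, (1 + 4 * if 2 ≤ #{i : Fin 5 | G.Adj w (u i)} then (1 : ℝ) else 0) := by
    refine sum_le_sum fun w _ => ?_
    have h5 : #{i : Fin 5 | G.Adj w (u i)} ≤ 5 := by
      have := Finset.card_le_univ (α := Fin 5) {i : Fin 5 | G.Adj w (u i)}
      simpa using this
    split_ifs with h
    · have : (#{i : Fin 5 | G.Adj w (u i)} : ℝ) ≤ 5 := by exact_mod_cast h5
      linarith
    · have : (#{i : Fin 5 | G.Adj w (u i)} : ℝ) ≤ 1 := by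
        have : #{i : Fin 5 | G.Adj w (u i)} ≤ 1 := by omega
        exact_mod_cast this
      linarith
  have h4 : ∑ w : V, (1 + 4 * if 2 ≤ #{i : Fin 5 | G.Adj w (u i)} then (1 : ℝ) else 0)
      = Fintype.card V + 4 * (#{w : V | 2 ≤ #{i : Fin 5 | G.Adj w (u i)}} : ℝ) := by
    rw [sum_add_distrib, ← mul_sum, Finset.card_filter (fun w => 2 ≤ #{i : Fin 5 | G.Adj w (u i)})]
    push_cast
    simp
  linarith

/-- The combinatorial choice: two distinct vertices of the 5-cycle are joined by a walk with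
three edges. -/
lemma walk_in_c5 : ∀ a b : Fin 5, a ≠ b → ∃ i j : Fin 5,
    (cycleGraph 5).Adj a i ∧ (cycleGraph 5).Adj i j ∧ (cycleGraph 5).Adj j b := by
  decide

/-- **Main counting lemma.** Pairwise edge-disjoint 5-cycles `u f`, `f ∈ J`, in a graph of minimum
degree `≥ γ n` force many homomorphisms from the 5-cycle. -/
theorem homC5_lower {V ι : Type} [Fintype V] [DecidableEq V] [DecidableEq ι]
    (G : SimpleGraph V) [DecidableRel G.Adj] (J : Finset ι) (u : ι → Fin 5 → V)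
    (hadj : ∀ f ∈ J, ∀ i j, (cycleGraph 5).Adj i j → G.Adj (u f i) (u f j))
    (hdis : ∀ f ∈ J, ∀ g ∈ J, ∀ i j i' j', (cycleGraph 5).Adj i j → (cycleGraph 5).Adj i' j' →
      u f i = u g i' → u f j = u g j' → f = g)
    (γ : ℝ) (hγ : ∀ v, γ * Fintype.card V ≤ G.degree v) (hγ' : 1 / 5 ≤ γ) :
    ((5 * γ - 1) / 4 * Fintype.card V * #J) ^ 3 ≤ (Fintype.card V : ℝ) ^ 4 *
      (#{x : Fin 5 → V | ∀ i j, (cycleGraph 5).Adj i j → G.Adj (x i) (x j)} : ℝ) := by
  classical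
  -- the set of pairs `(f, w)` with `f ∈ J` and `w` seeing two vertices of the cycle `u f`
  let K : Finset ((_ : ι) × V) := J.sigma fun f => {w : V | 2 ≤ #{i : Fin 5 | G.Adj w (u f i)}}
  have hK : (5 * γ - 1) / 4 * Fintype.card V * #J ≤ (#K : ℝ) := by
    have h1 : (#K : ℝ) = ∑ f ∈ J, (#{w : V | 2 ≤ #{i : Fin 5 | G.Adj w (u f i)}} : ℝ) := by
      simp only [K, card_sigma]
      push_cast
      rfl
    rw [h1]
    calc (5 * γ - 1) / 4 * Fintype.card V * #J = ∑ f ∈ J, (5 * γ - 1) / 4 * Fintype.card V := by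
          rw [sum_const, nsmul_eq_mul]; ring
      _ ≤ _ := sum_le_sum fun f _ => many_w G (u f) γ hγ
  -- choice of the 3-walk
  have hwalk : ∀ k : (_ : ι) × V, ∃ p : Fin 4 → Fin 5, k ∈ K →
      (cycleGraph 5).Adj (p 0) (p 1) ∧ (cycleGraph 5).Adj (p 1) (p 2) ∧
      (cycleGraph 5).Adj (p 2) (p 3) ∧ G.Adj k.2 (u k.1 (p 0)) ∧ G.Adj k.2 (u k.1 (p 3)) := by
    intro k
    by_cases hk : k ∈ K
    · have h2 : 1 < #{i : Fin 5 | G.Adj k.2 (u k.1 i)} := by
        have := (Finset.mem_sigma.mp hk).2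
        exact (Finset.mem_filter.mp this).2
      obtain ⟨a, ha, b, hb, hab⟩ := Finset.one_lt_card.mp h2
      obtain ⟨i, j, h1, h2, h3⟩ := walk_in_c5 a b hab
      refine ⟨![a, i, j, b], fun _ => ⟨h1, h2, h3, ?_, ?_⟩⟩
      · simpa using ha
      · simpa using hb
    · exact ⟨fun _ => 0, fun h => absurd h hk⟩
  choose p hp using hwalk
  let φ : (_ : ι) × V → V × V := fun k => (k.2, u k.1 (p k 1))
  let ψ : (_ : ι) × V → V × V := fun k => (k.2, u k.1 (p k 2))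
  have hw3 := walk3 (Fintype.card V ^ 2) (by simp [sq]) (by simp [sq]) K φ ψ
  -- the set of triples
  let T : Finset ((_ : (_ : ι) × V) × (((_ : ι) × V) × ((_ : ι) × V))) :=
    K.sigma fun k => {g ∈ K | φ g = φ k} ×ˢ {g ∈ K | ψ g = ψ k}
  have hT : (#T : ℝ) = ∑ k ∈ K, (#{g ∈ K | φ g = φ k} : ℝ) * (#{g ∈ K | ψ g = ψ k} : ℝ) := by
    simp only [T, card_sigma, card_product]
    push_cast
    rfl
  have hinj : #T ≤ #{x : Fin 5 → V | ∀ i j, (cycleGraph 5).Adj i j → G.Adj (x i) (x j)} := by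
    refine Finset.card_le_card_of_injOn
      (fun t => ![t.1.2, u t.2.1.1 (p t.2.1 0), u t.1.1 (p t.1 1), u t.1.1 (p t.1 2),
        u t.2.2.1 (p t.2.2 3)]) ?_ ?_
    · rintro ⟨k, g, h⟩ ht
      simp only [T, coe_sigma, Set.mem_sigma_iff, mem_coe, mem_product, mem_filter] at ht
      obtain ⟨hk, ⟨hg, hgk⟩, ⟨hh, hhk⟩⟩ := ht
      simp only [φ, ψ, Prod.mk.injEq] at hgk hhk
      have pk := hp k hk
      have pg := hp g hg
      have ph := hp h hh
      have memJ : ∀ k ∈ K, k.1 ∈ J := fun k hk => (Finset.mem_sigma.mp hk).1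
      have e0 : G.Adj k.2 (u g.1 (p g 0)) := hgk.1 ▸ pg.2.2.2.1
      have e1 : G.Adj (u g.1 (p g 0)) (u k.1 (p k 1)) := hgk.2 ▸ hadj _ (memJ g hg) _ _ pg.1
      have e2 : G.Adj (u k.1 (p k 1)) (u k.1 (p k 2)) := hadj _ (memJ k hk) _ _ pk.2.1
      have e3 : G.Adj (u k.1 (p k 2)) (u h.1 (p h 3)) := hhk.2 ▸ hadj _ (memJ h hh) _ _ ph.2.2.1
      have e4 : G.Adj (u h.1 (p h 3)) k.2 := (hhk.1 ▸ ph.2.2.2.2).symm
      simp only [coe_filter, mem_univ, true_and, Set.mem_ofPred_eq]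
      intro i j hij
      fin_cases i <;> fin_cases j <;> first
        | exact absurd hij (by decide)
        | exact e0
        | exact e0.symm
        | exact e1
        | exact e1.symm
        | exact e2
        | exact e2.symm
        | exact e3
        | exact e3.symm
        | exact e4
        | exact e4.symm
    · rintro ⟨k, g, h⟩ ht ⟨k', g', h'⟩ ht' heq
      simp only [T, coe_sigma, Set.mem_sigma_iff, mem_coe, mem_product, mem_filter] at ht ht'
      obtain ⟨hk, ⟨hg, hgk⟩, ⟨hh, hhk⟩⟩ := ht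
      obtain ⟨hk', ⟨hg', hgk'⟩, ⟨hh', hhk'⟩⟩ := ht'
      simp only [φ, ψ, Prod.mk.injEq] at hgk hhk hgk' hhk'
      have memJ : ∀ k ∈ K, k.1 ∈ J := fun k hk => (Finset.mem_sigma.mp hk).1
      have q0 : k.2 = k'.2 := congrFun heq 0
      have q1 : u g.1 (p g 0) = u g'.1 (p g' 0) := congrFun heq 1
      have q2 : u k.1 (p k 1) = u k'.1 (p k' 1) := congrFun heq 2
      have q3 : u k.1 (p k 2) = u k'.1 (p k' 2) := congrFun heq 3
      have q4 : u h.1 (p h 3) = u h'.1 (p h' 3) := congrFun heq 4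
      have hkk : k = k' := by
        have h1 : k.1 = k'.1 := hdis _ (memJ k hk) _ (memJ k' hk') _ _ _ _
          (hp k hk).2.1 (hp k' hk').2.1 q2 q3
        exact Sigma.ext h1 (heq_of_eq q0)
      have hgg : g = g' := by
        have h1 : g.1 = g'.1 := hdis _ (memJ g hg) _ (memJ g' hg') _ _ _ _
          (hp g hg).1 (hp g' hg').1 q1 (by rw [hgk.2, hgk'.2, q2])
        exact Sigma.ext h1 (heq_of_eq (by rw [hgk.1, hgk'.1, q0]))
      have hhh : h = h' := by
        have h1 : h.1 = h'.1 := hdis _ (memJ h hh) _ (memJ h' hh') _ _ _ _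
          (hp h hh).2.2.1 (hp h' hh').2.2.1 (by rw [hhk.2, hhk'.2, q3]) q4
        exact Sigma.ext h1 (heq_of_eq (by rw [hhk.1, hhk'.1, q0]))
      rw [hkk, hgg, hhh]
  have hcpos : 0 ≤ (5 * γ - 1) / 4 * Fintype.card V * #J := by
    have : 0 ≤ (5 * γ - 1) / 4 := by linarith
    positivity
  calc ((5 * γ - 1) / 4 * Fintype.card V * #J) ^ 3 ≤ (#K : ℝ) ^ 3 :=
        pow_le_pow_left₀ hcpos hK 3
    _ ≤ ((Fintype.card V ^ 2 : ℕ) : ℝ) ^ 2 * #T := by rw [hT]; exact hw3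
    _ = (Fintype.card V : ℝ) ^ 4 * #T := by push_cast; ring
    _ ≤ _ := by
        have : (#T : ℝ) ≤
          (#{x : Fin 5 → V | ∀ i j, (cycleGraph 5).Adj i j → G.Adj (x i) (x j)} : ℝ) := by
          exact_mod_cast hinj
        gcongr

end Pool.Agent.Lib.MP_155693_co
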