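import Mathlib
import Pool.Agent.Lib.MP_155693_co.Counting

/-!
# The lower bound: the polynomial removal threshold of the Möbius ladder is at least `1/4`
-/

namespace Pool.Agent.Lib.MP_155693_co

open Finset SimpleGraph

/-- Using the removal property for a graph on an arbitrary finite vertex type. -/
lemma removal_bound {W V ι : Type} [Fintype W] [Fintype V] [Fintype ι] [Nonempty V]
    (H : SimpleGraph W) (G : SimpleGraph V) [DecidableRel G.Adj] (ε γ δ : ℝ)
    (hδ : δ ∈ removalSet H ε γ) (hdeg : ∀ v, γ * Fintype.card V ≤ G.degree v)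
    (c : ι → H.Copy G) (hinj : Function.Injective c)
    (hdis : ∀ p q a b a' b', H.Adj a b → H.Adj a' b' → c p a = c q a' → c p b = c q b' → p = q)
    (hcard : ε * (Fintype.card V : ℝ) ^ 2 ≤ Fintype.card ι) :
    δ * (Fintype.card V : ℝ) ^ Fintype.card W ≤ G.labelledCopyCount H := by
  classical
  let G' : SimpleGraph (Fin (Fintype.card V)) := G.overFin rfl
  let e : G ≃g G' := G.overFinIso rfl
  let c' : ι → H.Copy G' := fun p => e.toCopy.comp (c p)
  have hc' : ∀ p a, c' p a = e (c p a) := fun p a => rfl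
  have hinj' : Function.Injective c' := by
    intro p q hpq
    apply hinj
    apply Copy.ext
    intro a
    have h1 : c' p a = c' q a := by rw [hpq]
    rw [hc', hc'] at h1
    exact e.injective h1
  have hJ : ∃ J : Finset (H.Copy G'), PairwiseEdgeDisjoint J ∧
      ε * (Fintype.card V : ℝ) ^ 2 ≤ #J := by
    refine ⟨univ.image c', ?_, ?_⟩
    · intro f hf g hg hfg
      rw [mem_image] at hf hg
      obtain ⟨p, _, rfl⟩ := hf
      obtain ⟨q, _, rfl⟩ := hg
      rw [Set.disjoint_left]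
      intro z hz hz'
      induction z using Sym2.inductionOn with
      | _ x y =>
        rw [Subgraph.mem_edgeSet, Subgraph.map_adj] at hz hz'
        obtain ⟨a, b, hab, hx, hy⟩ := hz
        obtain ⟨a', b', hab', hx', hy'⟩ := hz'
        have hab : H.Adj a b := hab
        have hab' : H.Adj a' b' := hab'
        have h1 : c' p a = c' q a' := by
          have e1 : c' p a = x := hx
          have e2 : c' q a' = x := hx'
          rw [e1, e2]
        have h2 : c' p b = c' q b' := by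
          have e1 : c' p b = y := hy
          have e2 : c' q b' = y := hy'
          rw [e1, e2]
        rw [hc', hc'] at h1 h2
        exact hfg (by rw [hdis p q a b a' b' hab hab' (e.injective h1) (e.injective h2)])
    · rw [card_image_of_injective _ hinj', Finset.card_univ]
      exact hcard
  have hmin : γ * (Fintype.card V : ℝ) ≤ G'.minDegree := by
    rw [← e.minDegree_eq]
    obtain ⟨v, hv⟩ := G.exists_minimal_degree_vertex
    rw [hv]
    exact hdeg v
  have h := hδ.2.2 (Fintype.card V) G' hmin hJ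
  refine h.trans ?_
  have h2 : G'.labelledCopyCount H ≤ G.labelledCopyCount H := by
    rw [labelledCopyCount_eq_natCard, labelledCopyCount_eq_natCard]
    have := copy_finite H G
    refine Nat.card_le_card_of_injective (fun f : H.Copy G' => e.symm.toCopy.comp f) ?_
    intro f g hfg
    apply Copy.ext
    intro a
    have h1 : e.symm.toCopy.comp f a = e.symm.toCopy.comp g a := by
      have := congrArg (fun t : H.Copy G => t a) hfg
      exact this
    have h3 : e.symm (f a) = e.symm (g a) := h1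
    exact e.symm.injective h3
  exact_mod_cast h2

/-- The removal function of the Möbius ladder is small. -/
lemma removalDelta_upper (γ : ℝ) (K k d : ℕ) (hk : 0 < k) (hd : 0 < d)
    (hK : γ * (12 + 4 * K) ≤ K) (ε : ℝ)
    (hε : ε = 1 / (((12 + 4 * (K : ℝ)) ^ 2 * 3 ^ k * 3 * k) * (d : ℝ) ^ 2)) :
    removalDelta mobius12 ε γ ≤
      Fintype.card (Equiv.Perm (ZMod 12)) / ((d : ℝ) ^ k) ^ 2 := by
  classical
  have hN1 : NeZero (3 * d) := ⟨by positivity⟩
  have hN2 : NeZero (3 * (k * d ^ 2)) := ⟨by positivity⟩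
  let S : Set (Grp k d) := (parS k d : Set (Grp k d))
  have hS : NoSol S := parS_noSol hk
  have hNcard : Fintype.card (Grp k d) = (3 * d) ^ k * (3 * (k * d ^ 2)) := by
    simp [Grp, ZMod.card]
  have hVcard : Fintype.card (VV (Grp k d) K) = (12 + 4 * K) * Fintype.card (Grp k d) := by
    simp only [VV, Fintype.card_sum, Fintype.card_prod, Fintype.card_fin, ZMod.card]
    ring
  have hScard : Fintype.card S = d ^ k := by
    have h1 : Fintype.card S = #(parS k d) := by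
      simp [S]
    rw [h1, card_parS hk]
  obtain ⟨N, hN⟩ : ∃ N : ℕ, N = Fintype.card (Grp k d) := ⟨_, rfl⟩
  have hdR : (0 : ℝ) < d := by exact_mod_cast hd
  have hkR : (0 : ℝ) < k := by exact_mod_cast hk
  have hNR : (N : ℝ) = (3 * d) ^ k * (3 * (k * d ^ 2)) := by
    rw [hN, hNcard]; push_cast; ring
  have hNpos : (0 : ℝ) < N := by rw [hNR]; positivity
  have hdN : (d : ℝ) ^ k ≤ N := by
    have h0 : d ^ k ≤ N := by
      rw [hN, hNcard]
      calc d ^ k ≤ (3 * d) ^ k := Nat.pow_le_pow_left (by omega) k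
        _ = (3 * d) ^ k * 1 := by ring
        _ ≤ (3 * d) ^ k * (3 * (k * d ^ 2)) := by
          refine Nat.mul_le_mul_left _ ?_
          have : 0 < 3 * (k * d ^ 2) := by positivity
          omega
    exact_mod_cast h0
  have hVR : (Fintype.card (VV (Grp k d) K) : ℝ) = (12 + 4 * K) * N := by
    rw [hVcard, ← hN]; push_cast; ring
  have hne : Nonempty (VV (Grp k d) K) := ⟨Sum.inl (0, 0)⟩
  set n : ℝ := (Fintype.card (VV (Grp k d) K) : ℝ) with hn
  have hnpos : 0 < n := by rw [hVR]; positivity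
  have hNn : (N : ℝ) ≤ n := by
    rw [hVR]
    have : (0 : ℝ) ≤ K := by positivity
    nlinarith
  unfold removalDelta
  refine csSup_le ⟨0, zero_mem_removalSet _ _ _⟩ ?_
  intro δ hδ
  have hdeg : ∀ v, γ * Fintype.card (VV (Grp k d) K) ≤ (gr S K).degree v := by
    intro v
    have h1 : ((Fintype.card (Grp k d) * K : ℕ) : ℝ) ≤ (gr S K).degree v := by
      exact_mod_cast degree_lower S K v
    refine le_trans ?_ h1
    rw [← hn, hVR, ← hN]
    push_cast
    calc γ * ((12 + 4 * (K : ℝ)) * N) = (γ * (12 + 4 * K)) * N := by ring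
      _ ≤ K * N := by gcongr
      _ = N * K := by ring
  have hcard : ε * (Fintype.card (VV (Grp k d) K) : ℝ) ^ 2 ≤
      Fintype.card (Grp k d × S) := by
    rw [Fintype.card_prod, hScard, ← hN, ← hn, hVR]
    push_cast
    refine le_of_eq ?_
    rw [hε, hNR]
    have h12 : (0 : ℝ) < 12 + 4 * K := by positivity
    field_simp
    rw [mul_pow]
  have hb := removal_bound mobius12 (gr S K) ε γ δ hδ hdeg (cp S K) (cp_injective S K)
    (fun p q a b a' b' hab _ h1 h2 => cp_disjoint hS K p q a b a' b' hab h1 h2) hcard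
  have hfew := few_copies hS K
  have hfew' : ((gr S K).labelledCopyCount mobius12 : ℝ) ≤
      Fintype.card (Equiv.Perm (ZMod 12)) * ((N : ℝ) ^ 2 * n ^ 8) := by
    rw [hn, hN]
    exact_mod_cast hfew
  have hb2 := hb.trans hfew'
  rw [← hn, ZMod.card] at hb2
  obtain ⟨P, hP⟩ : ∃ P : ℝ, P = Fintype.card (Equiv.Perm (ZMod 12)) := ⟨_, rfl⟩
  have hP0 : 0 ≤ P := by rw [hP]; positivity
  rw [← hP] at hb2 ⊢
  -- δ n^12 ≤ P N² n^8
  have h1 : δ * n ^ 4 ≤ P * N ^ 2 := by
    have : (δ * n ^ 4) * n ^ 8 ≤ (P * N ^ 2) * n ^ 8 := by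
      calc (δ * n ^ 4) * n ^ 8 = δ * n ^ 12 := by ring
        _ ≤ P * (N ^ 2 * n ^ 8) := hb2
        _ = (P * N ^ 2) * n ^ 8 := by ring
    exact le_of_mul_le_mul_right this (by positivity)
  have h2 : δ * N ^ 2 ≤ P := by
    have hδ0 : 0 ≤ δ := hδ.1
    have : (δ * N ^ 2) * N ^ 2 ≤ P * N ^ 2 := by
      calc (δ * N ^ 2) * N ^ 2 = δ * N ^ 4 := by ring
        _ ≤ δ * n ^ 4 := by gcongr
        _ ≤ P * N ^ 2 := h1
    exact le_of_mul_le_mul_right this (by positivity)
  rw [le_div_iff₀ (by positivity)]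
  refine le_trans ?_ h2
  have hδ0 : 0 ≤ δ := hδ.1
  gcongr

/-- **Lower bound.** `δ_poly-rem(M₁₂) ≥ 1/4`. -/
theorem lower : 1 / 4 ≤ polyRemovalThreshold mobius12 := by
  unfold polyRemovalThreshold
  refine le_csInf ⟨1, one_mem_threshold_set _⟩ ?_
  rintro γ ⟨h0, h1, μ, hμ, hall⟩
  by_contra hlt
  push Not at hlt
  have h4 : 0 < 1 - 4 * γ := by linarith
  obtain ⟨K, hK⟩ := exists_nat_ge (12 * γ / (1 - 4 * γ))
  rw [div_le_iff₀ h4] at hK
  have hK' : γ * (12 + 4 * K) ≤ K := by linarith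
  obtain ⟨p, hp⟩ := exists_nat_ge (1 / μ)
  obtain ⟨k, hk⟩ : ∃ k : ℕ, k = p + 1 := ⟨_, rfl⟩
  have hk0 : 0 < k := by omega
  have hkR : (0 : ℝ) < k := by exact_mod_cast hk0
  have hk1 : (1 : ℝ) ≤ k := by exact_mod_cast hk0
  obtain ⟨Q, hQ⟩ : ∃ Q : ℝ, Q = (12 + 4 * (K : ℝ)) ^ 2 * 3 ^ k * 3 * k := ⟨_, rfl⟩
  have hQ1 : 1 ≤ Q := by
    rw [hQ]
    have a1 : (1 : ℝ) ≤ (12 + 4 * (K : ℝ)) ^ 2 := by
      have : (0 : ℝ) ≤ K := by positivity
      nlinarith
    have a2 : (1 : ℝ) ≤ 3 ^ k := one_le_pow₀ (by norm_num)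
    have a3 : (1 : ℝ) ≤ (12 + 4 * (K : ℝ)) ^ 2 * 3 ^ k := one_le_mul_of_one_le_of_one_le a1 a2
    have a4 : (1 : ℝ) ≤ (12 + 4 * (K : ℝ)) ^ 2 * 3 ^ k * 3 :=
      one_le_mul_of_one_le_of_one_le a3 (by norm_num)
    exact one_le_mul_of_one_le_of_one_le a4 hk1
  have hQ0 : 0 < Q := by linarith
  obtain ⟨P, hP⟩ : ∃ P : ℝ, P = Fintype.card (Equiv.Perm (ZMod 12)) := ⟨_, rfl⟩
  have hP0 : 0 ≤ P := by rw [hP]; positivity
  obtain ⟨d, hd⟩ := exists_nat_gt (P * Q ^ p / μ)
  have hdR : (0 : ℝ) < d := lt_of_le_of_lt (by positivity) hd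
  have hd0 : 0 < d := by exact_mod_cast hdR
  have hd1 : (1 : ℝ) ≤ d := by exact_mod_cast hd0
  have hd2 : (1 : ℝ) ≤ (d : ℝ) ^ 2 := one_le_pow₀ hd1
  obtain ⟨ε, hε⟩ : ∃ ε : ℝ, ε = 1 / (Q * (d : ℝ) ^ 2) := ⟨_, rfl⟩
  have hε0 : 0 < ε := by rw [hε]; positivity
  have hε1 : ε ≤ 1 := by
    rw [hε, div_le_one (by positivity)]
    exact one_le_mul_of_one_le_of_one_le hQ1 hd2
  have hup := removalDelta_upper γ K k d hk0 hd0 hK' ε (by rw [hε, hQ])
  have hlow := hall ε hε0 hε1
  rw [← hP] at hup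
  have hpow : ε ^ p ≤ ε ^ (1 / μ) := by
    rw [← Real.rpow_natCast]
    exact Real.rpow_le_rpow_of_exponent_ge hε0 hε1 hp
  have h5 : μ * ε ^ p ≤ P / ((d : ℝ) ^ k) ^ 2 := by
    refine le_trans ?_ (hlow.trans hup)
    gcongr
  rw [hε, div_pow, one_pow, le_div_iff₀ (by positivity), mul_pow, hk] at h5
  have h6 : μ * (1 / (Q ^ p * ((d : ℝ) ^ 2) ^ p)) * ((d : ℝ) ^ (p + 1)) ^ 2 =
      μ * (d : ℝ) ^ 2 / Q ^ p := by
    have : ((d : ℝ) ^ (p + 1)) ^ 2 = ((d : ℝ) ^ 2) ^ p * (d : ℝ) ^ 2 := by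
      rw [← pow_mul, ← pow_mul]; ring
    rw [this]
    field_simp
  rw [h6, div_le_iff₀ (by positivity)] at h5
  rw [div_lt_iff₀ hμ] at hd
  have h7 : μ * (d : ℝ) ≤ μ * (d : ℝ) ^ 2 := by
    have : (d : ℝ) ≤ (d : ℝ) ^ 2 := by nlinarith
    gcongr
  linarith

end Pool.Agent.Lib.MP_155693_co
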