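import Mathlib
import Pool.Agent.Lib.MP_155693_co.Defs
import Pool.Agent.Lib.MP_155693_co.Blowup
import Pool.Agent.Lib.MP_155693_co.Cycles

/-!
# The upper bound: the polynomial removal threshold of `C₅[3]` is at most `1/5`
-/

namespace Pool.Agent.Lib.MP_155693_co

open Finset SimpleGraph

/-- Few functions are not injective. -/
lemma card_noninj {W V : Type*} [Fintype W] [Fintype V] [DecidableEq W] [DecidableEq V] :
    #{f : W → V | ¬ Function.Injective f} ≤
      Fintype.card W ^ 2 * Fintype.card V ^ (Fintype.card W - 1) := by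
  classical
  have h1 : ({f : W → V | ¬ Function.Injective f} : Finset (W → V)) ⊆
      (univ : Finset (W × W)).biUnion
        (fun p => ({f : W → V | p.1 ≠ p.2 ∧ f p.1 = f p.2} : Finset (W → V))) := by
    intro f hf
    simp only [mem_filter, mem_univ, true_and, Function.Injective, not_forall] at hf
    obtain ⟨a, b, hab, hne⟩ := hf
    simp only [mem_biUnion, mem_univ, true_and, mem_filter]
    exact ⟨(a, b), hne, hab⟩
  refine (card_le_card h1).trans ?_
  refine (card_biUnion_le).trans ?_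
  have h2 : ∀ p : W × W, #({f : W → V | p.1 ≠ p.2 ∧ f p.1 = f p.2} : Finset (W → V)) ≤
      Fintype.card V ^ (Fintype.card W - 1) := by
    intro p
    have hc : Fintype.card ({x : W // x ≠ p.1} → V) = Fintype.card V ^ (Fintype.card W - 1) := by
      rw [Fintype.card_fun]
      congr 1
      simp
    rw [← hc, ← Finset.card_univ]
    refine Finset.card_le_card_of_injOn (fun f x => f x.1) (fun _ _ => by simp) ?_
    intro f hf g hg hfg
    simp only [coe_filter, mem_univ, true_and, Set.mem_ofPred_eq] at hf hg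
    funext x
    by_cases hx : x = p.1
    · subst hx
      have := congrFun hfg ⟨p.2, fun h => hf.1 h.symm⟩
      simp only at this
      rw [hf.2, hg.2, this]
    · exact congrFun hfg ⟨x, hx⟩
  calc ∑ p : W × W, #({f : W → V | p.1 ≠ p.2 ∧ f p.1 = f p.2} : Finset (W → V))
      ≤ ∑ p : W × W, Fintype.card V ^ (Fintype.card W - 1) := sum_le_sum fun p _ => h2 p
    _ = _ := by
      rw [sum_const, smul_eq_mul, Finset.card_univ, Fintype.card_prod, sq]

/-- Homomorphisms (as functions) are copies or non-injective functions. -/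
lemma card_hom_le {W V : Type} [Fintype W] [Fintype V] [DecidableEq W] [DecidableEq V]
    (H : SimpleGraph W) (G : SimpleGraph V) [DecidableRel H.Adj] [DecidableRel G.Adj] :
    #{f : W → V | ∀ a b, H.Adj a b → G.Adj (f a) (f b)} ≤
      G.labelledCopyCount H + Fintype.card W ^ 2 * Fintype.card V ^ (Fintype.card W - 1) := by
  classical
  have h1 : ({f : W → V | ∀ a b, H.Adj a b → G.Adj (f a) (f b)} : Finset (W → V)) ⊆
      ({f : W → V | (∀ a b, H.Adj a b → G.Adj (f a) (f b)) ∧ Function.Injective f} :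
        Finset (W → V)) ∪ ({f : W → V | ¬ Function.Injective f} : Finset (W → V)) := by
    intro f hf
    simp only [mem_filter, mem_univ, true_and] at hf
    by_cases hinj : Function.Injective f
    · exact mem_union_left _ (by simp [hinj]; exact hf)
    · exact mem_union_right _ (by simp [hinj])
  refine (card_le_card h1).trans ((card_union_le _ _).trans ?_)
  refine Nat.add_le_add ?_ card_noninj
  rw [labelledCopyCount_eq_natCard, ← Fintype.card_subtype, ← Nat.card_eq_fintype_card]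
  have := copy_finite H G
  refine Nat.card_le_card_of_injective
    (fun f => (⟨⟨f.1, fun h => f.2.1 _ _ h⟩, f.2.2⟩ : H.Copy G)) ?_
  intro f g hfg
  apply Subtype.ext
  have := congrArg (fun h : H.Copy G => (h : W → V)) hfg
  exact this

/-- The blow-up inequality for the 5-cycle. -/
lemma blowup_count {V : Type} [Fintype V] [DecidableEq V] [Nonempty V] (G : SimpleGraph V)
    [DecidableRel G.Adj] [DecidableRel blowC5.Adj] :
    ((#{x : Fin 5 → V | ∀ i j, (cycleGraph 5).Adj i j → G.Adj (x i) (x j)} : ℝ) /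
        (Fintype.card V : ℝ) ^ 5) ^ 243 * (Fintype.card V : ℝ) ^ 15 ≤
      (#{y : Fin 5 × Fin 3 → V | ∀ a b, blowC5.Adj a b → G.Adj (y a) (y b)} : ℝ) := by
  classical
  let P : V → V → V → V → V → Prop := fun x0 x1 x2 x3 x4 =>
    ∀ i j, (cycleGraph 5).Adj i j → G.Adj (![x0, x1, x2, x3, x4] i) (![x0, x1, x2, x3, x4] j)
  have hn : (0 : ℝ) < Fintype.card V := by exact_mod_cast Fintype.card_pos
  -- rewriting the count of homomorphisms of the 5-cycle
  have e1 : cnt5 P = (#{x : Fin 5 → V | ∀ i j, (cycleGraph 5).Adj i j → G.Adj (x i) (x j)} : ℝ) := by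
    have : (#{x : Fin 5 → V | ∀ i j, (cycleGraph 5).Adj i j → G.Adj (x i) (x j)} : ℝ)
        = ∑ x : Fin 5 → V, if (∀ i j, (cycleGraph 5).Adj i j → G.Adj (x i) (x j)) then (1 : ℝ)
          else 0 := by
      rw [Finset.card_filter]; push_cast; rfl
    rw [this]
    let e : V × V × V × V × V ≃ (Fin 5 → V) :=
      { toFun := fun x => ![x.1, x.2.1, x.2.2.1, x.2.2.2.1, x.2.2.2.2]
        invFun := fun x => (x 0, x 1, x 2, x 3, x 4)
        left_inv := fun x => rfl
        right_inv := fun x => by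
          funext i
          fin_cases i <;> rfl }
    rw [← e.sum_comp]
    simp only [Fintype.sum_prod_type, e, cnt5, P]
    refine Finset.sum_congr rfl fun x2 _ => Finset.sum_congr rfl fun x3 _ =>
      Finset.sum_congr rfl fun x4 _ => Finset.sum_congr rfl fun x5 _ =>
      Finset.sum_congr rfl fun x6 _ => ?_
    congr
  have e2 : cnt5 (rot (rot (rot (rot (rot P))))) ≤
      (#{y : Fin 5 × Fin 3 → V | ∀ a b, blowC5.Adj a b → G.Adj (y a) (y b)} : ℝ) := by
    have h1 : cnt5 (rot (rot (rot (rot (rot P))))) =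
        (#{z : (Fin 3 → V) × (Fin 3 → V) × (Fin 3 → V) × (Fin 3 → V) × (Fin 3 → V) |
          rot (rot (rot (rot (rot P)))) z.1 z.2.1 z.2.2.1 z.2.2.2.1 z.2.2.2.2} : ℝ) := by
      rw [Finset.card_filter]
      push_cast
      simp only [Fintype.sum_prod_type, cnt5]
    rw [h1]
    have h2 : #{z : (Fin 3 → V) × (Fin 3 → V) × (Fin 3 → V) × (Fin 3 → V) × (Fin 3 → V) |
          rot (rot (rot (rot (rot P)))) z.1 z.2.1 z.2.2.1 z.2.2.2.1 z.2.2.2.2} ≤
        #{y : Fin 5 × Fin 3 → V | ∀ a b, blowC5.Adj a b → G.Adj (y a) (y b)} := by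
      refine Finset.card_le_card_of_injOn
        (fun z p => (![z.1, z.2.1, z.2.2.1, z.2.2.2.1, z.2.2.2.2] : Fin 5 → Fin 3 → V) p.1 p.2)
        ?_ ?_
      · rintro ⟨z0, z1, z2, z3, z4⟩ hz
        have hz := (Finset.mem_filter.mp (Finset.mem_coe.mp hz)).2
        refine Finset.mem_coe.mpr (Finset.mem_filter.mpr ⟨Finset.mem_univ _, ?_⟩)
        rintro ⟨i, s⟩ ⟨j, t⟩ hij
        have hij' : (cycleGraph 5).Adj i j := hij
        have key : ∀ c : Fin 5 → Fin 3, ∀ i j, (cycleGraph 5).Adj i j →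
            G.Adj ((![z0, z1, z2, z3, z4] : Fin 5 → Fin 3 → V) i (c i))
              ((![z0, z1, z2, z3, z4] : Fin 5 → Fin 3 → V) j (c j)) := by
          intro c i j hij
          have := hz (c 4) (c 3) (c 2) (c 1) (c 0) i j hij
          fin_cases i <;> fin_cases j <;> exact this
        have hne : i ≠ j := hij'.ne
        have := key (Function.update (fun _ => t) i s) i j hij'
        rw [Function.update_self, Function.update_of_ne hne.symm] at this
        exact this
      · rintro ⟨z0, z1, z2, z3, z4⟩ _ ⟨w0, w1, w2, w3, w4⟩ _ h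
        have hh : ∀ i : Fin 5, ∀ s : Fin 3, (![z0, z1, z2, z3, z4] : Fin 5 → Fin 3 → V) i s =
            (![w0, w1, w2, w3, w4] : Fin 5 → Fin 3 → V) i s := fun i s => congrFun h (i, s)
        have a0 : z0 = w0 := funext (hh 0)
        have a1 : z1 = w1 := funext (hh 1)
        have a2 : z2 = w2 := funext (hh 2)
        have a3 : z3 = w3 := funext (hh 3)
        have a4 : z4 = w4 := funext (hh 4)
        rw [a0, a1, a2, a3, a4]
    exact_mod_cast h2
  have h5 := dens5_rot5 P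
  unfold dens5 at h5
  rw [e1] at h5
  simp only [Fintype.card_pi, Finset.prod_const, Finset.card_univ, Fintype.card_fin,
    Nat.cast_pow] at h5
  have d1 : (Fintype.card V : ℝ) * Fintype.card V * Fintype.card V * Fintype.card V *
      Fintype.card V = (Fintype.card V : ℝ) ^ 5 := by ring
  have d2 : (Fintype.card V : ℝ) ^ 3 * (Fintype.card V : ℝ) ^ 3 * (Fintype.card V : ℝ) ^ 3 *
      (Fintype.card V : ℝ) ^ 3 * (Fintype.card V : ℝ) ^ 3 = (Fintype.card V : ℝ) ^ 15 := by ring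
  rw [d1, d2, le_div_iff₀ (by positivity)] at h5
  exact h5.trans e2

/-- The final step, with two regimes for `n`. -/
lemma two_regimes (n : ℕ) (hn : 0 < n) (d C : ℝ) (hd0 : 0 < d) (hd1 : d ≤ 1) (hC : 1 ≤ C)
    (hlow : d * (n : ℝ) ^ 15 ≤ C + 225 * (n : ℝ) ^ 14) :
    (d / 450) ^ 15 * (n : ℝ) ^ 15 ≤ C := by
  have hn0 : (0 : ℝ) < n := by exact_mod_cast hn
  have hD0 : 0 < d / 450 := by positivity
  have hD1 : d / 450 ≤ 1 := by linarith
  have hDD : (d / 450) ^ 15 ≤ d / 450 := by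
    have := pow_le_pow_of_le_one hD0.le hD1 (show 1 ≤ 15 by norm_num)
    simpa using this
  by_cases hbig : 450 ≤ d * n
  · have h1 : 225 * (n : ℝ) ^ 14 ≤ d * (n : ℝ) ^ 15 / 2 := by
      have : 225 * (n : ℝ) ^ 14 ≤ (d * n / 2) * (n : ℝ) ^ 14 := by
        have : (225 : ℝ) ≤ d * n / 2 := by linarith
        gcongr
      calc 225 * (n : ℝ) ^ 14 ≤ (d * n / 2) * (n : ℝ) ^ 14 := this
        _ = d * (n : ℝ) ^ 15 / 2 := by ring
    have h2 : (d / 450) ^ 15 * (n : ℝ) ^ 15 ≤ d / 450 * (n : ℝ) ^ 15 := by gcongr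
    have h3 : d / 450 * (n : ℝ) ^ 15 ≤ d * (n : ℝ) ^ 15 / 2 := by
      have : 0 ≤ d * (n : ℝ) ^ 15 := by positivity
      linarith
    linarith
  · push Not at hbig
    refine le_trans ?_ hC
    rw [← mul_pow]
    refine pow_le_one₀ (by positivity) ?_
    rw [div_mul_eq_mul_div, div_le_one (by norm_num)]
    exact hbig.le

/-- Lower bound for the number of copies plus an error term. -/
lemma count_lower {n : ℕ} (hn : 0 < n) (G : SimpleGraph (Fin n)) [DecidableRel G.Adj] (c γ ε : ℝ)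
    (hc : c = (5 * γ - 1) / 4) (hγ : 1 / 5 < γ) (hε : 0 < ε) (hG : γ * n ≤ G.minDegree)
    (J : Finset (blowC5.Copy G)) (hJd : PairwiseEdgeDisjoint J) (hJc : ε * (n : ℝ) ^ 2 ≤ #J) :
    ((c * ε) ^ 3) ^ 243 * (n : ℝ) ^ 15 ≤ G.labelledCopyCount blowC5 + 225 * (n : ℝ) ^ 14 := by
  classical
  have hc0 : 0 < c := by rw [hc]; linarith
  have : Nonempty (Fin n) := ⟨⟨0, hn⟩⟩
  have hn0 : (0 : ℝ) < n := by exact_mod_cast hn
  have cardW : Fintype.card (Fin 5 × Fin 3) = 15 := by simp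
  -- the 5-cycles
  let u : blowC5.Copy G → Fin 5 → Fin n := fun f i => f (i, 0)
  have hadj : ∀ f ∈ J, ∀ i j, (cycleGraph 5).Adj i j → G.Adj (u f i) (u f j) := by
    intro f _ i j hij
    exact f.toHom.map_adj (show blowC5.Adj (i, 0) (j, 0) from hij)
  have hdis : ∀ f ∈ J, ∀ g ∈ J, ∀ i j i' j', (cycleGraph 5).Adj i j → (cycleGraph 5).Adj i' j' →
      u f i = u g i' → u f j = u g j' → f = g := by
    intro f hf g hg i j i' j' hij hij' h1 h2
    by_contra hne
    have hdj := hJd f hf g hg hne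
    rw [Set.disjoint_left] at hdj
    refine hdj (a := s(u f i, u f j)) ?_ ?_
    · rw [Subgraph.mem_edgeSet, Subgraph.map_adj]
      exact ⟨(i, 0), (j, 0), hij, rfl, rfl⟩
    · rw [h1, h2, Subgraph.mem_edgeSet, Subgraph.map_adj]
      exact ⟨(i', 0), (j', 0), hij', rfl, rfl⟩
  have hdeg : ∀ v, γ * Fintype.card (Fin n) ≤ G.degree v := by
    intro v
    rw [Fintype.card_fin]
    have : (G.minDegree : ℝ) ≤ G.degree v := by exact_mod_cast G.minDegree_le_degree v
    linarith
  have hmain := homC5_lower G J u hadj hdis γ hdeg hγ.le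
  rw [← hc] at hmain
  simp only [Fintype.card_fin] at hmain
  -- lower bound for the density of homomorphic 5-cycles
  have hdens : (c * ε) ^ 3 ≤
      (#{x : Fin 5 → Fin n | ∀ i j, (cycleGraph 5).Adj i j → G.Adj (x i) (x j)} : ℝ) /
        (n : ℝ) ^ 5 := by
    rw [le_div_iff₀ (by positivity)]
    have h1 : c * n * (ε * (n : ℝ) ^ 2) ≤ c * n * #J := by gcongr
    have h2 : (c * n * (ε * (n : ℝ) ^ 2)) ^ 3 ≤ (n : ℝ) ^ 4 *
      (#{x : Fin 5 → Fin n | ∀ i j, (cycleGraph 5).Adj i j → G.Adj (x i) (x j)} : ℝ) :=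
      (pow_le_pow_left₀ (by positivity) h1 3).trans hmain
    have h3 : (c * n * (ε * (n : ℝ) ^ 2)) ^ 3 = (n : ℝ) ^ 4 * ((c * ε) ^ 3 * (n : ℝ) ^ 5) := by ring
    rw [h3] at h2
    exact le_of_mul_le_mul_left h2 (by positivity)
  have hblow := blowup_count G
  have hhom := card_hom_le blowC5 G
  rw [cardW] at hhom
  simp only [Fintype.card_fin] at hblow hhom
  have hhom' : (#{y : Fin 5 × Fin 3 → Fin n | ∀ a b, blowC5.Adj a b → G.Adj (y a) (y b)} : ℝ) ≤
      G.labelledCopyCount blowC5 + 225 * (n : ℝ) ^ 14 := by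
    have : ((G.labelledCopyCount blowC5 + 15 ^ 2 * n ^ 14 : ℕ) : ℝ) =
      G.labelledCopyCount blowC5 + 225 * (n : ℝ) ^ 14 := by push_cast; norm_num
    rw [← this]
    exact_mod_cast hhom
  refine le_trans ?_ (hblow.trans hhom')
  refine mul_le_mul_of_nonneg_right ?_ (by positivity)
  exact pow_le_pow_left₀ (by positivity) hdens 243

/-- The key estimate: a polynomial lower bound for the number of copies of `C₅[3]`. -/
theorem upper_key (γ : ℝ) (hγ : 1 / 5 < γ) (hγ1 : γ ≤ 1) (ε : ℝ) (hε : 0 < ε) (hε1 : ε ≤ 1) :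
    ((((5 * γ - 1) / 4 * ε) ^ 3) ^ 243 / 450) ^ 15 ∈ removalSet blowC5 ε γ := by
  classical
  obtain ⟨c, hc⟩ : ∃ c : ℝ, c = (5 * γ - 1) / 4 := ⟨_, rfl⟩
  have hc0 : 0 < c := by rw [hc]; linarith
  have hc1 : c ≤ 1 := by rw [hc]; linarith
  rw [← hc]
  have hce : c * ε ≤ 1 := mul_le_one₀ hc1 hε.le hε1
  have hd0 : 0 < ((c * ε) ^ 3) ^ 243 := by positivity
  have hd1 : ((c * ε) ^ 3) ^ 243 ≤ 1 :=
    pow_le_one₀ (by positivity) (pow_le_one₀ (by positivity) hce)
  have hlow : ∀ (n : ℕ) (_ : 0 < n) (G : SimpleGraph (Fin n)) [DecidableRel G.Adj],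
      γ * n ≤ G.minDegree → ∀ J : Finset (blowC5.Copy G), PairwiseEdgeDisjoint J →
      ε * (n : ℝ) ^ 2 ≤ #J →
      ((c * ε) ^ 3) ^ 243 * (n : ℝ) ^ 15 ≤ G.labelledCopyCount blowC5 + 225 * (n : ℝ) ^ 14 := by
    intro n hn G _ hG J hJd hJc
    exact count_lower hn G c γ ε hc hγ hε hG J hJd hJc
  generalize ((c * ε) ^ 3) ^ 243 = d at hd0 hd1 hlow ⊢
  have hD0 : 0 < d / 450 := by positivity
  have hD1 : d / 450 ≤ 1 := by linarith
  refine ⟨by positivity, pow_le_one₀ hD0.le hD1, ?_⟩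
  intro n G _ hG hJ
  obtain ⟨J, hJd, hJc⟩ := hJ
  rcases Nat.eq_zero_or_pos n with hn | hn
  · subst hn
    simp [Fintype.card_prod]
  have hn0 : (0 : ℝ) < n := by exact_mod_cast hn
  have cardW : Fintype.card (Fin 5 × Fin 3) = 15 := by simp
  rw [cardW]
  have hJne : 0 < #J := by
    have h0 : (0 : ℝ) < #J := lt_of_lt_of_le (by positivity) hJc
    exact_mod_cast h0
  obtain ⟨f, _⟩ := Finset.card_pos.mp hJne
  have h1 : 0 < G.labelledCopyCount blowC5 := labelledCopyCount_pos.mpr ⟨f⟩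
  have h2 : (1 : ℝ) ≤ G.labelledCopyCount blowC5 := by exact_mod_cast h1
  exact two_regimes n hn d _ hd0 hd1 h2 (hlow n hn G hG J hJd hJc)

/-- **Upper bound.** `δ_poly-rem(C₅[3]) ≤ 1/5`. -/
theorem upper : polyRemovalThreshold blowC5 ≤ 1 / 5 := by
  unfold polyRemovalThreshold
  refine le_of_forall_gt_imp_ge_of_dense ?_
  intro γ hγ
  by_cases hγ1 : γ ≤ 1
  · refine csInf_le ⟨0, fun x hx => hx.1⟩ ⟨by linarith, hγ1, ?_⟩
    have hc0 : 0 < (5 * γ - 1) / 4 := by linarith
    set c : ℝ := (5 * γ - 1) / 4 with hc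
    have hK : 0 < (((c ^ 3) ^ 243) / 450) ^ 15 := by positivity
    set K : ℝ := (((c ^ 3) ^ 243) / 450) ^ 15 with hKdef
    refine ⟨min K (1 / (3 * 243 * 15 : ℕ)), lt_min hK (by positivity), ?_⟩
    intro ε hε hε1
    refine le_trans ?_ (le_removalDelta blowC5 ε γ (upper_key γ hγ hγ1 ε hε hε1))
    rw [← hc]
    have h1 : (((c * ε) ^ 3) ^ 243 / 450) ^ 15 = K * ε ^ (3 * 243 * 15) := by
      rw [hKdef, mul_pow, mul_pow, mul_div_right_comm, mul_pow, ← pow_mul, ← pow_mul ε,
        ← pow_mul ε]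
    rw [h1]
    set μ : ℝ := min K (1 / (3 * 243 * 15 : ℕ)) with hμ
    have hμ0 : 0 < μ := lt_min hK (by positivity)
    have h2 : ε ^ (1 / μ) ≤ ε ^ (3 * 243 * 15) := by
      rw [← Real.rpow_natCast]
      refine Real.rpow_le_rpow_of_exponent_ge hε hε1 ?_
      rw [le_div_iff₀ hμ0]
      have : μ ≤ 1 / (3 * 243 * 15 : ℕ) := min_le_right _ _
      rw [le_div_iff₀ (by positivity)] at this
      linarith
    have h3 : μ ≤ K := min_le_left _ _
    gcongr
  · push Not at hγ1
    refine le_trans (csInf_le ⟨0, fun x hx => hx.1⟩ (one_mem_threshold_set blowC5)) hγ1.le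

end Pool.Agent.Lib.MP_155693_co
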